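import Pool.Agent.SymMader.Three

/-!
# Lower bounds: complete digraphs and the bioriented pentagon
-/

set_option autoImplicit false

namespace Pool.Agent.SymMader

open Pool.Agent.Hhelper50.Mader

/-- The complete digraph on `ℓ - 1` vertices has no colouring with `k - 1 < ℓ - 1` classes. -/
theorem complete_no_col {n k : ℕ} (hk : k < n) :
    ¬ ∃ (c : Fin n → Fin k) (r : Fin n → ℕ), ∀ u v, u ≠ v → c u = c v → r u < r v := by
  rintro ⟨c, r, h⟩
  obtain ⟨u, v, huv, he⟩ := Fintype.exists_ne_map_eq_of_card_lt c (by simpa using hk)
  have h1 := h u v huv he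
  have h2 := h v u huv.symm he.symm
  omega

theorem complete_no_neck {ℓ : ℕ} (hℓ : 1 ≤ ℓ) (A : Fin (ℓ - 1) → Fin (ℓ - 1) → Prop) :
    ¬ HasNeck A ℓ := by
  rintro ⟨b, _, _, hb, _⟩
  have : NeZero ℓ := ⟨by omega⟩
  have := Fintype.card_le_of_injective b hb
  rw [ZMod.card, Fintype.card_fin] at this
  omega

/-- The bioriented pentagon. -/
def Pent (u v : ZMod 5) : Prop := u + 1 = v ∨ v + 1 = u

theorem pent_symm (u v : ZMod 5) (h : Pent u v) : Pent v u := Or.symm h

theorem pent_irr (v : ZMod 5) : ¬ Pent v v := by
  unfold Pent
  revert v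
  decide

theorem pent_no_col {k : ℕ} (hk : k ≤ 2) :
    ¬ ∃ (c : ZMod 5 → Fin k) (r : ZMod 5 → ℕ), ∀ u v, Pent u v → c u = c v → r u < r v := by
  rintro ⟨c, r, h⟩
  have hne : ∀ u : ZMod 5, c u ≠ c (u + 1) := by
    intro u he
    have h1 := h u (u + 1) (Or.inl rfl) he
    have h2 := h (u + 1) u (Or.inr rfl) he.symm
    omega
  have hne' : ∀ u : ZMod 5, Fin.castLE hk (c u) ≠ Fin.castLE hk (c (u + 1)) := by
    intro u he
    exact hne u (Fin.castLE_injective hk he)
  have hdec : ∀ a b c d e : Fin 2, ¬ (a ≠ b ∧ b ≠ c ∧ c ≠ d ∧ d ≠ e ∧ e ≠ a) := by decide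
  have h4 := hne' (0 + 1 + 1 + 1 + 1)
  have e5 : (0 + 1 + 1 + 1 + 1 + 1 : ZMod 5) = 0 := by decide
  rw [e5] at h4
  exact hdec _ _ _ _ _ ⟨hne' 0, hne' (0 + 1), hne' (0 + 1 + 1), hne' (0 + 1 + 1 + 1), h4⟩

theorem pent_nbr (x y : ZMod 5) (h : Pent x y) : y = x + 1 ∨ y = x - 1 := by
  rcases h with h | h
  · exact Or.inl h.symm
  · right; rw [← h]; ring

theorem pent_no_neck : ¬ HasNeck Pent 3 := by
  rintro ⟨b, L, P, hb, hL, hends, hadj, hint, hdis⟩
  have hz1 : ∀ i : ZMod 3, i + 1 ≠ i - 1 := by decide
  have hz2 : ∀ i : ZMod 3, i ≠ i - 1 := by decide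
  have hz3 : ∀ i : ZMod 3, i - 1 + 1 = i := by decide
  -- the two neighbours of a branch vertex are branch vertices
  have key : ∀ (i : ZMod 3) (w w' : ZMod 5), (∀ y, Pent (b i) y → y = w ∨ y = w') →
      ∃ m, w = b m := by
    intro i w w' hnb
    by_contra hcon
    push Not at hcon
    -- positions of paths leaving `b i`
    obtain ⟨f0, f1, t0, t1⟩ := hends i
    obtain ⟨f0', f1', t0', t1'⟩ := hends (i - 1)
    rw [hz3] at f1' t0'
    have leave : (1 < L i false ∧ P i false 1 = w) ∨ (1 < L (i - 1) true ∧ P (i - 1) true 1 = w) := by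
      have a1 := hadj i false 0 (hL i false)
      have a2 := hadj (i - 1) true 0 (hL (i - 1) true)
      rw [f0] at a1
      rw [t0'] at a2
      have g1 : P i false 1 = w → 1 < L i false := by
        intro e
        by_contra hlt
        have e1 : L i false = 1 := by have := hL i false; omega
        rw [e1] at f1
        exact hcon _ (e.symm.trans f1)
      have g2 : P (i - 1) true 1 = w → 1 < L (i - 1) true := by
        intro e
        by_contra hlt
        have e1 : L (i - 1) true = 1 := by have := hL (i - 1) true; omega
        rw [e1] at t1'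
        exact hcon _ (e.symm.trans t1')
      rcases hnb _ a1 with e | e
      · exact Or.inl ⟨g1 e, e⟩
      · rcases hnb _ a2 with e' | e'
        · exact Or.inr ⟨g2 e', e'⟩
        · exfalso
          have e : P i false 1 = w' := e
          have e' : P (i - 1) true 1 = w' := e'
          rcases Nat.lt_or_ge 1 (L i false) with h | h
          · rcases Nat.lt_or_ge 1 (L (i - 1) true) with h' | h'
            · have := (hdis i false 1 (i - 1) true 1 (by omega) h (by omega) h'
                (e.trans e'.symm)).2.1
              exact absurd this (by decide)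
            · have e1 : L (i - 1) true = 1 := by have := hL (i - 1) true; omega
              rw [e1] at t1'
              exact hint i false 1 (by omega) h (i - 1) ((e.trans e'.symm).trans t1')
          · have e1 : L i false = 1 := by have := hL i false; omega
            rw [e1] at f1
            rcases Nat.lt_or_ge 1 (L (i - 1) true) with h' | h'
            · exact hint (i - 1) true 1 (by omega) h' (i + 1) ((e'.trans e.symm).trans f1)
            · have e2 : L (i - 1) true = 1 := by have := hL (i - 1) true; omega
              rw [e2] at t1'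
              exact hz1 i (hb ((f1.symm.trans (e.trans e'.symm)).trans t1'))
    have enter : (∃ j, 0 < j ∧ j < L i true ∧ P i true j = w) ∨
        (∃ j, 0 < j ∧ j < L (i - 1) false ∧ P (i - 1) false j = w) := by
      have a1 := hadj i true (L i true - 1) (by have := hL i true; omega)
      have a2 := hadj (i - 1) false (L (i - 1) false - 1) (by have := hL (i - 1) false; omega)
      have x1 : L i true - 1 + 1 = L i true := by have := hL i true; omega
      have x2 : L (i - 1) false - 1 + 1 = L (i - 1) false := by
        have := hL (i - 1) false; omega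
      rw [x1, t1] at a1
      rw [x2, f1'] at a2
      have a1 := pent_symm _ _ a1
      have a2 := pent_symm _ _ a2
      have g1 : P i true (L i true - 1) = w → 0 < L i true - 1 := by
        intro e
        by_contra hlt
        have e1 : L i true - 1 = 0 := by omega
        rw [e1, t0] at e
        exact hcon _ e.symm
      have g2 : P (i - 1) false (L (i - 1) false - 1) = w → 0 < L (i - 1) false - 1 := by
        intro e
        by_contra hlt
        have e1 : L (i - 1) false - 1 = 0 := by omega
        rw [e1, f0'] at e
        exact hcon _ e.symm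
      rcases hnb _ a1 with e | e
      · exact Or.inl ⟨_, g1 e, by have := hL i true; omega, e⟩
      · rcases hnb _ a2 with e' | e'
        · exact Or.inr ⟨_, g2 e', by have := hL (i - 1) false; omega, e'⟩
        · exfalso
          rcases Nat.eq_zero_or_pos (L i true - 1) with h | h
          · rw [h, t0] at e
            rcases Nat.eq_zero_or_pos (L (i - 1) false - 1) with h' | h'
            · rw [h', f0'] at e'
              exact hz1 i (hb (e.trans e'.symm))
            · exact hint (i - 1) false _ h' (by have := hL (i - 1) false; omega) (i + 1)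
                (e'.trans e.symm)
          · rcases Nat.eq_zero_or_pos (L (i - 1) false - 1) with h' | h'
            · rw [h', f0'] at e'
              exact hint i true _ h (by have := hL i true; omega) (i - 1) (e.trans e'.symm)
            · have := (hdis i true _ (i - 1) false _ h (by have := hL i true; omega) h'
                (by have := hL (i - 1) false; omega) (e.trans e'.symm)).2.1
              exact absurd this (by decide)
    rcases leave with ⟨l1, l2⟩ | ⟨l1, l2⟩
    · rcases enter with ⟨j, j0, j1, j2⟩ | ⟨j, j0, j1, j2⟩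
      · have := (hdis i false 1 i true j (by omega) l1 j0 j1 (l2.trans j2.symm)).2.1
        exact absurd this (by decide)
      · exact hz2 i (hdis i false 1 (i - 1) false j (by omega) l1 j0 j1 (l2.trans j2.symm)).1
    · rcases enter with ⟨j, j0, j1, j2⟩ | ⟨j, j0, j1, j2⟩
      · exact hz2 i (hdis i true j (i - 1) true 1 j0 j1 (by omega) l1 (j2.trans l2.symm)).1
      · have := (hdis (i - 1) true 1 (i - 1) false j (by omega) l1 j0 j1 (l2.trans j2.symm)).2.1
        exact absurd this (by decide)
  have hstep : ∀ i : ZMod 3, ∃ m, b i + 1 = b m := fun i =>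
    key i (b i + 1) (b i - 1) (fun y hy => pent_nbr _ _ hy)
  have hall : ∀ n : ℕ, ∃ m, b 0 + (n : ZMod 5) = b m := by
    intro n
    induction n with
    | zero => exact ⟨0, by simp⟩
    | succ n ih =>
      obtain ⟨m, hm⟩ := ih
      obtain ⟨m', hm'⟩ := hstep m
      refine ⟨m', ?_⟩
      rw [← hm', ← hm]; push_cast; ring
  have hsurj : Function.Surjective b := by
    intro y
    obtain ⟨m, hm⟩ := hall (ZMod.val (y - b 0))
    refine ⟨m, ?_⟩
    rw [← hm, ZMod.natCast_zmod_val]; ring
  have := Fintype.card_le_of_surjective b hsurj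
  rw [ZMod.card, ZMod.card] at this
  omega

end Pool.Agent.SymMader
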