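import Pool.Agent.SymMader.Ear

/-!
# Concatenation of three paths to an ear
-/

set_option autoImplicit false

namespace Pool.Agent.SymMader

open Pool.Agent.Hhelper50.Mader

variable {V : Type}

/-- `(E)`: after removing an ear of `B` there is no path with `q` vertices outside `B`. -/
def NoEar (A : V → V → Prop) (B : Set V) (q : ℕ) : Prop :=
  ∀ (k : ℕ) (r : ℕ → V) (a d : V), 1 ≤ k → PathOn A Bᶜ k r → a ∈ B → d ∈ B → a ≠ d →
    A a (r 0) → A (r (k - 1)) d → ¬ HasPath A (B ∪ img r k)ᶜ q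

/-- An ear given as a closed path `W 0 = a, ..., W n = d`. -/
theorem noEar_path {A : V → V → Prop} {B : Set V} {q : ℕ} (hE : NoEar A B q)
    {n : ℕ} (hn : 2 ≤ n) {W : ℕ → V} (hadj : ∀ i, i < n → A (W i) (W (i + 1)))
    (hinj : ∀ i j, i ≤ n → j ≤ n → W i = W j → i = j) (h0 : W 0 ∈ B) (hnB : W n ∈ B)
    (hin : ∀ i, 0 < i → i < n → W i ∉ B) {h : ℕ → V} (hh : PathOn A Bᶜ q h)
    (hW : ∀ i, i < q → ∀ j, 0 < j → j < n → h i ≠ W j) : False := by
  refine hE (n - 1) (fun j => W (j + 1)) (W 0) (W n) (by omega) ⟨?_, ?_, ?_⟩ h0 hnB ?_ ?_ ?_ ?_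
  · intro i hi; exact hin _ (by omega) (by omega)
  · intro i hi; exact hadj _ (by omega)
  · intro i j hi hj he
    have := hinj _ _ (by omega) (by omega) he
    omega
  · intro e
    have := hinj 0 n (by omega) le_rfl e
    omega
  · exact hadj 0 (by omega)
  · have := hadj (n - 1) (by omega)
    have e : n - 1 + 1 = n := by omega
    have e2 : n - 1 - 1 + 1 = n - 1 := by omega
    rw [e] at this
    simpa only [e2] using this
  · refine ⟨h, ?_, hh.2.1, hh.2.2⟩
    intro i hi hc
    rcases hc with hc | ⟨j, hj, hc⟩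
    · exact hh.1 i hi hc
    · exact hW i hi (j + 1) (by omega) (by omega) hc

theorem arc_ear {A : V → V → Prop} {B : Set V} {q : ℕ} (hE : NoEar A B q)
    {α ℓ γ : ℕ} {W₁ g W₂ h : ℕ → V} (hα : 1 ≤ α) (hγ : 1 ≤ γ)
    (h1a : ∀ i, i < α → A (W₁ i) (W₁ (i + 1)))
    (h1i : ∀ i j, i ≤ α → j ≤ α → W₁ i = W₁ j → i = j)
    (h10 : W₁ 0 ∈ B) (h1B : ∀ i, 0 < i → i ≤ α → W₁ i ∉ B)
    (hga : ∀ i, i < ℓ → A (g i) (g (i + 1)))
    (hgi : ∀ i j, i ≤ ℓ → j ≤ ℓ → g i = g j → i = j)
    (hgB : ∀ i, i ≤ ℓ → g i ∉ B) (hg0 : g 0 = W₁ α)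
    (h2a : ∀ i, i < γ → A (W₂ i) (W₂ (i + 1)))
    (h2i : ∀ i j, i ≤ γ → j ≤ γ → W₂ i = W₂ j → i = j)
    (h2γ : W₂ γ ∈ B) (h2B : ∀ i, i < γ → W₂ i ∉ B) (h20 : W₂ 0 = g ℓ)
    (hd1 : ∀ i j, i < α → j ≤ ℓ → W₁ i ≠ g j) (hd2 : ∀ i j, 0 < i → i ≤ γ → j ≤ ℓ → W₂ i ≠ g j)
    (hd12 : ∀ i j, i < α → 0 < j → j ≤ γ → W₁ i ≠ W₂ j)
    (hh : PathOn A Bᶜ q h) (hh1 : ∀ i j, i < q → j ≤ α → h i ≠ W₁ j)
    (hhg : ∀ i j, i < q → j ≤ ℓ → h i ≠ g j) (hh2 : ∀ i j, i < q → j ≤ γ → h i ≠ W₂ j) :
    False := by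
  set W : ℕ → V := fun j => if j ≤ α then W₁ j else if j ≤ α + ℓ then g (j - α) else
    W₂ (j - α - ℓ) with hW
  have f1 : ∀ j, j ≤ α → W j = W₁ j := by
    intro j hj; simp only [hW, hj, if_true]
  have f2 : ∀ j, α ≤ j → j ≤ α + ℓ → W j = g (j - α) := by
    intro j h1 h2
    by_cases e : j ≤ α
    · have e' : j = α := by omega
      subst e'
      rw [f1 j le_rfl, Nat.sub_self, hg0]
    · simp only [hW, e, h2, if_false, if_true]
  have f3 : ∀ j, α + ℓ ≤ j → W j = W₂ (j - α - ℓ) := by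
    intro j h1
    by_cases e : j ≤ α + ℓ
    · have e' : j = α + ℓ := by omega
      rw [f2 j (by omega) (by omega), e']
      have e2 : α + ℓ - α = ℓ := by omega
      have e3 : α + ℓ - α - ℓ = 0 := by omega
      rw [e3, h20, e2]
    · have e' : ¬ j ≤ α := by omega
      simp only [hW, e, e', if_false]
  refine noEar_path hE (n := α + ℓ + γ) (by omega) (W := W) ?_ ?_ ?_ ?_ ?_ hh ?_
  · intro i hi
    rcases Nat.lt_or_ge i α with h1 | h1
    · rw [f1 i (by omega), f1 (i + 1) (by omega)]; exact h1a i h1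
    · rcases Nat.lt_or_ge i (α + ℓ) with h2 | h2
      · rw [f2 i h1 (by omega), f2 (i + 1) (by omega) (by omega)]
        have e : i + 1 - α = (i - α) + 1 := by omega
        rw [e]; exact hga _ (by omega)
      · rw [f3 i h2, f3 (i + 1) (by omega)]
        have e : i + 1 - α - ℓ = (i - α - ℓ) + 1 := by omega
        rw [e]; exact h2a _ (by omega)
  · have key : ∀ i j, i < j → j ≤ α + ℓ + γ → W i = W j → False := by
      intro i j hij hj he
      rcases Nat.lt_or_ge i α with h1 | h1
      · rw [f1 i (by omega)] at he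
        rcases Nat.lt_or_ge α j with k1 | k1
        · rcases Nat.lt_or_ge (α + ℓ) j with k2 | k2
          · rw [f3 j (by omega)] at he
            exact hd12 i _ h1 (by omega) (by omega) he
          · rw [f2 j (by omega) k2] at he
            exact hd1 i _ h1 (by omega) he
        · rw [f1 j k1] at he
          have := h1i _ _ (by omega) k1 he
          omega
      · rcases Nat.lt_or_ge (α + ℓ) i with h2 | h2
        · rw [f3 i (by omega), f3 j (by omega)] at he
          have := h2i _ _ (by omega) (by omega) he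
          omega
        · rw [f2 i h1 h2] at he
          rcases Nat.lt_or_ge (α + ℓ) j with k2 | k2
          · rw [f3 j (by omega)] at he
            exact hd2 _ _ (by omega) (by omega) (by omega) he.symm
          · rw [f2 j (by omega) k2] at he
            have := hgi _ _ (by omega) (by omega) he
            omega
    intro i j hi hj he
    rcases lt_trichotomy i j with h | h | h
    · exact (key i j h hj he).elim
    · exact h
    · exact (key j i h hi he.symm).elim
  · rw [f1 0 (by omega)]; exact h10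
  · rw [f3 _ (by omega)]
    have e : α + ℓ + γ - α - ℓ = γ := by omega
    rw [e]; exact h2γ
  · intro i h0 hi
    rcases Nat.lt_or_ge i α with h1 | h1
    · rw [f1 i (by omega)]; exact h1B i h0 (by omega)
    · rcases Nat.lt_or_ge (α + ℓ) i with h2 | h2
      · rw [f3 i (by omega)]; exact h2B _ (by omega)
      · rw [f2 i h1 h2]; exact hgB _ (by omega)
  · intro i hi j h0 hj
    rcases Nat.lt_or_ge j α with h1 | h1
    · rw [f1 j (by omega)]; exact hh1 i j hi (by omega)
    · rcases Nat.lt_or_ge (α + ℓ) j with h2 | h2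
      · rw [f3 j (by omega)]; exact hh2 i _ hi (by omega)
      · rw [f2 j h1 h2]; exact hhg i _ hi (by omega)

/-- The two arcs of a cycle: with two disjoint paths to `B` one gets a contradiction if the cycle
has at least `2 q + 1` vertices. -/
theorem cyc_links {A : V → V → Prop} (hsym : ∀ u v, A u v → A v u) {B : Set V} {q : ℕ}
    (hE : NoEar A B q) {n : ℕ} (hn : 2 * q + 1 ≤ n) (hn0 : 0 < n) {c : ℕ → V}
    (hca : ∀ s, A (c s) (c (s + 1))) (hcB : ∀ s, c s ∉ B)
    (hci : ∀ s t, c s = c t → s % n = t % n) (hcper : ∀ s, c (s + n) = c s)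
    {α γ : ℕ} {W₁ W₂ : ℕ → V} (hα : 1 ≤ α) (hγ : 1 ≤ γ)
    (h1a : ∀ i, i < α → A (W₁ i) (W₁ (i + 1)))
    (h1i : ∀ i j, i ≤ α → j ≤ α → W₁ i = W₁ j → i = j)
    (h10 : W₁ 0 ∈ B) (h1B : ∀ i, 0 < i → i ≤ α → W₁ i ∉ B)
    (h1C : ∀ i, i < α → ∀ s, W₁ i ≠ c s)
    (h2a : ∀ i, i < γ → A (W₂ i) (W₂ (i + 1)))
    (h2i : ∀ i j, i ≤ γ → j ≤ γ → W₂ i = W₂ j → i = j)
    (h2γ : W₂ γ ∈ B) (h2B : ∀ i, i < γ → W₂ i ∉ B)
    (h2C : ∀ i, 0 < i → i ≤ γ → ∀ s, W₂ i ≠ c s)
    (hd12 : ∀ i j, i ≤ α → j ≤ γ → W₁ i ≠ W₂ j)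
    {u₀ v₀ : ℕ} (hu : u₀ < n) (hv : v₀ < n) (h1α : W₁ α = c u₀) (h20 : W₂ 0 = c v₀) : False := by
  have huv : u₀ ≠ v₀ := by
    rintro rfl; exact hd12 α 0 le_rfl (by omega) (h1α.trans h20.symm)
  -- choose `v` with `u₀ < v < u₀ + n`
  obtain ⟨v, hv1, hv2, hvc⟩ : ∃ v, u₀ < v ∧ v < u₀ + n ∧ c v = c v₀ := by
    rcases Nat.lt_or_ge u₀ v₀ with h | h
    · exact ⟨v₀, h, by omega, rfl⟩
    · exact ⟨v₀ + n, by omega, by omega, hcper v₀⟩
  have hmod : ∀ s t, c s = c t → s < t → t < s + n → False := by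
    intro s t he h1 h2
    have h3 := hci s t he
    have h4 : (t - s) % n = 0 := (Nat.modEq_iff_dvd' (by omega)).mp h3 |>.elim fun k hk => by
      rw [hk]; exact Nat.mul_mod_right n k
    rw [Nat.mod_eq_of_lt (by omega)] at h4
    omega
  -- remaining arc of the forward arc
  rcases Nat.lt_or_ge (n - (v - u₀) - 1) q with hcase | hcase
  · -- use the backward arc, the forward arc has at least `q` inner vertices
    refine arc_ear hE (ℓ := n - (v - u₀)) (g := fun s => c (u₀ + n - s))
      (h := fun s => c (u₀ + 1 + s)) hα hγ h1a h1i h10 h1B ?_ ?_ (fun i _ => hcB _) ?_ h2a h2i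
      h2γ h2B ?_ (fun i j hi _ => h1C i hi _) (fun i j h0 hi _ => h2C i h0 hi _)
      (fun i j hi _ hj => hd12 i j (by omega) hj) ⟨fun i _ => hcB _, ?_, ?_⟩ ?_ ?_ ?_
    · intro i hi
      have := hca (u₀ + n - (i + 1))
      have e : u₀ + n - (i + 1) + 1 = u₀ + n - i := by omega
      rw [e] at this
      exact hsym _ _ this
    · intro i j hi hj he
      rcases lt_trichotomy i j with h | h | h
      · exact (hmod _ _ he.symm (by omega) (by omega)).elim
      · exact h
      · exact (hmod _ _ he (by omega) (by omega)).elim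
    · simp only [Nat.sub_zero]
      rw [hcper, h1α]
    · have e : u₀ + n - (n - (v - u₀)) = v := by omega
      simp only [e]
      rw [h20, hvc]
    · intro i hi; exact hca _
    · intro i j hi hj he
      rcases lt_trichotomy i j with h | h | h
      · exact (hmod _ _ he (by omega) (by omega)).elim
      · exact h
      · exact (hmod _ _ he.symm (by omega) (by omega)).elim
    · intro i j hi hj he
      rcases Nat.lt_or_ge j α with h | h
      · exact h1C j h _ he.symm
      · have e : j = α := by omega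
        rw [e, h1α] at he
        exact hmod _ _ he.symm (by omega) (by omega)
    · intro i j hi hj he
      exact hmod _ _ he (by omega) (by omega)
    · intro i j hi hj he
      rcases Nat.eq_zero_or_pos j with h | h
      · rw [h, h20, ← hvc] at he
        exact hmod _ _ he (by omega) (by omega)
      · exact h2C j h hj _ he.symm
  · refine arc_ear hE (ℓ := v - u₀) (g := fun s => c (u₀ + s))
      (h := fun s => c (v + 1 + s)) hα hγ h1a h1i h10 h1B ?_ ?_ (fun i _ => hcB _) ?_ h2a h2i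
      h2γ h2B ?_ (fun i j hi _ => h1C i hi _) (fun i j h0 hi _ => h2C i h0 hi _)
      (fun i j hi _ hj => hd12 i j (by omega) hj) ⟨fun i _ => hcB _, ?_, ?_⟩ ?_ ?_ ?_
    · intro i hi
      exact hca _
    · intro i j hi hj he
      rcases lt_trichotomy i j with h | h | h
      · exact (hmod _ _ he (by omega) (by omega)).elim
      · exact h
      · exact (hmod _ _ he.symm (by omega) (by omega)).elim
    · simp only [Nat.add_zero]
      rw [h1α]
    · have e : u₀ + (v - u₀) = v := by omega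
      simp only [e]
      rw [h20, hvc]
    · intro i hi; exact hca _
    · intro i j hi hj he
      rcases lt_trichotomy i j with h | h | h
      · exact (hmod _ _ he (by omega) (by omega)).elim
      · exact h
      · exact (hmod _ _ he.symm (by omega) (by omega)).elim
    · intro i j hi hj he
      rcases Nat.lt_or_ge j α with h | h
      · exact h1C j h _ he.symm
      · have e : j = α := by omega
        rw [e, h1α, ← hcper u₀] at he
        exact hmod _ _ he (by omega) (by omega)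
    · intro i j hi hj he
      exact hmod _ _ he.symm (by omega) (by omega)
    · intro i j hi hj he
      rcases Nat.eq_zero_or_pos j with h | h
      · rw [h, h20, ← hvc] at he
        exact hmod _ _ he.symm (by omega) (by omega)
      · exact h2C j h hj _ he.symm

end Pool.Agent.SymMader
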