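import Pool.Agent.Hhelper50.Mader.Basic

/-!
# Symmetric digraphs and the bioriented cycle: definitions and the assembly of the necklace
-/

set_option autoImplicit false

namespace Pool.Agent.SymMader

open Pool.Agent.Hhelper50.Mader

variable {V : Type}

/-- `x 0, ..., x (n-1)` is a path (distinct vertices) inside `S`. -/
def PathOn (A : V → V → Prop) (S : Set V) (n : ℕ) (x : ℕ → V) : Prop :=
  (∀ i, i < n → x i ∈ S) ∧ (∀ i, i + 1 < n → A (x i) (x (i + 1))) ∧
    ∀ i j, i < n → j < n → x i = x j → i = j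

/-- `S` contains a path with `n` vertices. -/
def HasPath (A : V → V → Prop) (S : Set V) (n : ℕ) : Prop := ∃ x, PathOn A S n x

/-- `S` is connected. -/
def Conn (A : V → V → Prop) (S : Set V) : Prop :=
  ∀ u ∈ S, ∀ v ∈ S, Relation.ReflTransGen (fun a b => A a b ∧ b ∈ S) u v

/-- `B` has at least two vertices, is connected and has no cut vertex. -/
def K2 (A : V → V → Prop) (B : Set V) : Prop :=
  (∃ a ∈ B, ∃ d ∈ B, a ≠ d) ∧ Conn A B ∧ ∀ x ∈ B, Conn A (B \ {x})

/-- The theta subgraph: a path `z 0, ..., z p` of length `p` and two disjoint return paths. -/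
def Theta (A : V → V → Prop) (p : ℕ) : Prop :=
  ∃ (z : ℕ → V) (S₁ S₂ : Set V), (∀ i, i < p → A (z i) (z (i + 1))) ∧
    (∀ i j, i ≤ p → j ≤ p → z i = z j → i = j) ∧
    (∀ i, i ≤ p → z i ∉ S₁) ∧ (∀ i, i ≤ p → z i ∉ S₂) ∧ (∀ v, v ∈ S₁ → v ∉ S₂) ∧
    Reach A S₁ (z p) (z 0) ∧ Reach A S₂ (z 0) (z p)

theorem Theta.hasNeck {A : V → V → Prop} (hsym : ∀ u v, A u v → A v u) {p : ℕ} (hp : 1 ≤ p)
    (h : Theta A p) : HasNeck A (p + 1) := by
  classical
  obtain ⟨z, S₁, S₂, hadj, hinj, h1, h2, hdis, hr1, hr2⟩ := h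
  have hval : ∀ i : ZMod (p + 1), ZMod.val i ≤ p := fun i => Nat.lt_succ_iff.mp (ZMod.val_lt i)
  have hsucc : ∀ i : ZMod (p + 1), ZMod.val i < p → ZMod.val (i + 1) = ZMod.val i + 1 := by
    intro i hi
    have h1' : ZMod.val (1 : ZMod (p + 1)) = 1 := by
      have : Fact (1 < p + 1) := ⟨by omega⟩
      exact ZMod.val_one (p + 1)
    rw [ZMod.val_add, h1', Nat.mod_eq_of_lt (by omega)]
  have hlast : ∀ i : ZMod (p + 1), ZMod.val i = p → i + 1 = 0 := by
    intro i hi
    have h : ((ZMod.val i : ℕ) : ZMod (p + 1)) = i := ZMod.natCast_zmod_val i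
    rw [hi] at h
    rw [← h]
    have := ZMod.natCast_self (p + 1)
    push_cast at this
    exact this
  refine assemble (fun i : ZMod (p + 1) => z (ZMod.val i)) ?_
    (fun i d => if ZMod.val i = p then (if d then S₂ else S₁) else ∅) ?_ ?_ ?_ ?_
  · intro i j hij
    exact ZMod.val_injective (p + 1) (hinj _ _ (hval i) (hval j) hij)
  · intro i d i' d' x hx hx'
    by_cases e : ZMod.val i = p
    · by_cases e' : ZMod.val i' = p
      · simp only [e, e', if_true] at hx hx'
        refine ⟨ZMod.val_injective (p + 1) (e.trans e'.symm), ?_⟩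
        cases d <;> cases d' <;> simp at hx hx' ⊢
        · exact hdis x hx hx'
        · exact hdis x hx' hx
      · simp [e'] at hx'
    · simp [e] at hx
  · intro i d m hm
    by_cases e : ZMod.val i = p
    · simp only [e, if_true] at hm
      cases d
      · simp at hm; exact h1 _ (hval m) hm
      · simp at hm; exact h2 _ (hval m) hm
    · simp [e] at hm
  · intro i
    by_cases e : ZMod.val i = p
    · have e2 := hlast i e
      simp only [e2, ZMod.val_zero, e, if_true, Bool.false_eq_true, if_false]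
      exact hr1
    · have hi : ZMod.val i < p := lt_of_le_of_ne (hval i) e
      simp only [e, if_false, hsucc i hi]
      exact Reach.arc (hadj _ hi)
  · intro i
    by_cases e : ZMod.val i = p
    · have e2 := hlast i e
      simp only [e2, ZMod.val_zero, e, if_true]
      exact hr2
    · have hi : ZMod.val i < p := lt_of_le_of_ne (hval i) e
      simp only [e, if_false, hsucc i hi]
      exact Reach.arc (hsym _ _ (hadj _ hi))

/-- A cycle of length `p + 1` is a theta. -/
theorem theta_of_cycle {A : V → V → Prop} (hsym : ∀ u v, A u v → A v u) {p : ℕ}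
    (z : ℕ → V) (hadj : ∀ i, i < p → A (z i) (z (i + 1)))
    (hinj : ∀ i j, i ≤ p → j ≤ p → z i = z j → i = j) (hc : A (z p) (z 0)) : Theta A p :=
  ⟨z, ∅, ∅, hadj, hinj, fun _ _ h => h, fun _ _ h => h, fun _ h => absurd h (by simp),
    Reach.arc hc, Reach.arc (hsym _ _ hc)⟩

end Pool.Agent.SymMader
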