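import Pool.Agent.SymMader.Three

/-!
# Symmetric digraphs of large minimum degree or large chromatic number
-/

set_option autoImplicit false

namespace Pool.Agent.SymMader

open Pool.Agent.Hhelper50.Mader

theorem neck_map {V W : Type} {A : V → V → Prop} {A' : W → W → Prop} (f : W → V)
    (hf : Function.Injective f) (hA : ∀ u v, A' u v → A (f u) (f v)) {ℓ : ℕ}
    (h : HasNeck A' ℓ) : HasNeck A ℓ := by
  obtain ⟨b, L, P, h1, h2, h3, h4, h5, h6⟩ := h
  refine ⟨fun i => f (b i), L, fun i d j => f (P i d j), fun i j he => h1 (hf he), h2, ?_, ?_, ?_, ?_⟩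
  · intro i
    obtain ⟨a1, a2, a3, a4⟩ := h3 i
    exact ⟨congrArg f a1, congrArg f a2, congrArg f a3, congrArg f a4⟩
  · intro i d j hj; exact hA _ _ (h4 i d j hj)
  · intro i d j h0 hj m he; exact h5 i d j h0 hj m (hf he)
  · intro i d j i' d' j' a b c e he; exact h6 i d j i' d' j' a b c e (hf he)

theorem gen_symm {V : Type} {A : V → V → Prop} (hsym : ∀ u v, A u v → A v u) {S : Set V} {u v : V}
    (hu : u ∈ S) (h : Relation.ReflTransGen (fun a b => A a b ∧ b ∈ S) u v) :
    v ∈ S ∧ Relation.ReflTransGen (fun a b => A a b ∧ b ∈ S) v u := by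
  induction h with
  | refl => exact ⟨hu, Relation.ReflTransGen.refl⟩
  | tail _ h ih => exact ⟨h.2, Relation.ReflTransGen.head ⟨hsym _ _ h.1, ih.1⟩ ih.2⟩

/-- The statement for 2-connected graphs: degree `D` at all vertices but one gives a theta with a
path of length exactly `p`. -/
def TwoConn (D p : ℕ) : Prop := ∀ (V : Type) [Finite V] (A : V → V → Prop),
  (∀ u v, A u v → A v u) → (∀ v, ¬ A v v) → ∀ s : V,
  (∀ v, v ≠ s → D ≤ Set.ncard {w | A v w}) → K2 A Set.univ → Theta A p

theorem twoConn_large {q : ℕ} (hq : 2 ≤ q) : TwoConn (q + 1) (q + 1) :=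
  fun _ _ _ hsym hirr s hdeg hG => theta_of_deg hsym hirr hq s hdeg hG

theorem twoConn_three : TwoConn 3 2 :=
  fun _ _ _ hsym hirr s hdeg hG => theta_two hsym hirr s hdeg hG

/-- A graph with at least two vertices in which all vertices except possibly `s` have degree at
least `D` contains a subdivision of the bioriented cycle of length `p + 1`. -/
theorem neck_of_deg {D p : ℕ} (hD : 3 ≤ D) (hp : 1 ≤ p) (hthm : TwoConn D p) (n : ℕ) :
    ∀ (V : Type) [Finite V]
    (A : V → V → Prop), Nat.card V = n → (∀ u v, A u v → A v u) → (∀ v, ¬ A v v) →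
    ∀ s : V, (∃ w, w ≠ s) → (∀ v, v ≠ s → D ≤ Set.ncard {w | A v w}) →
    HasNeck A (p + 1) := by
  classical
  induction n using Nat.strong_induction_on with
  | _ n ih =>
    intro V _ A hn hsym hirr s hw hdeg
    by_cases hG : ∀ x, Conn A (Set.univ \ {x})
    · obtain ⟨w, hws⟩ := hw
      refine (hthm V A hsym hirr s hdeg
        ⟨⟨w, trivial, s, trivial, hws⟩, ?_, fun x _ => hG x⟩).hasNeck hsym hp
      intro u _ v _
      have h1 : Set.ncard ({u, v} : Set V) < Set.ncard {z | A w z} := by
        have h2 : Set.ncard ({u, v} : Set V) ≤ 2 := (Set.ncard_insert_le _ _).trans (by simp)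
        have := hdeg w hws
        omega
      obtain ⟨x, _, hx⟩ := Set.exists_mem_notMem_of_ncard_lt_ncard h1 (Set.toFinite _)
      exact gen_mono (Set.subset_univ _) (hG x u ⟨trivial, fun e => hx (Or.inl e.symm)⟩ v
        ⟨trivial, fun e => hx (Or.inr e.symm)⟩)
    · push Not at hG
      obtain ⟨x, hx⟩ := hG
      unfold Conn at hx
      push Not at hx
      obtain ⟨u, hu, v, hv, huv⟩ := hx
      obtain ⟨C, hC⟩ : ∃ C : V → Set V, ∀ a w, w ∈ C a ↔
        Relation.ReflTransGen (fun a b => A a b ∧ b ∈ Set.univ \ {x}) a w :=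
        ⟨fun a => {w | Relation.ReflTransGen (fun a b => A a b ∧ b ∈ Set.univ \ {x}) a w},
          fun _ _ => Iff.rfl⟩
      have key : ∀ a, a ≠ x → (∃ b, b ≠ x ∧ b ∉ C a) → s ∉ C a → HasNeck A (p + 1) := by
        rintro a hax ⟨b, hbx, hb⟩ hs
        have hlt : Nat.card {w : V // w ∈ C a ∨ w = x} < n := by
          rw [← hn]
          have : Fintype V := Fintype.ofFinite V
          rw [Nat.card_eq_fintype_card, Nat.card_eq_fintype_card]
          refine Fintype.card_subtype_lt (x := b) ?_
          rintro (h | h)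
          · exact hb h
          · exact hbx h
        refine neck_map (A' := fun u v : {w : V // w ∈ C a ∨ w = x} => A u v) Subtype.val
          Subtype.val_injective (fun _ _ h => h)
          (ih _ hlt _ _ rfl (fun u v h => hsym _ _ h) (fun v => hirr _) ⟨x, Or.inr rfl⟩
            ⟨⟨a, Or.inl ((hC a a).mpr Relation.ReflTransGen.refl)⟩, ?_⟩ ?_)
        · intro e; exact hax (congrArg Subtype.val e)
        · rintro ⟨w, hw⟩ hne
          have hwx : w ≠ x := by rintro rfl; exact hne rfl
          have hwC : w ∈ C a := hw.resolve_right hwx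
          have hws : w ≠ s := by rintro rfl; exact hs hwC
          have h1 := hdeg w hws
          have h2 : {z : V | A w z} = Subtype.val ''
              {z : {w : V // w ∈ C a ∨ w = x} | A w z} := by
            ext z
            constructor
            · intro hz
              by_cases hzx : z = x
              · exact ⟨⟨z, Or.inr hzx⟩, hz, rfl⟩
              · refine ⟨⟨z, Or.inl ?_⟩, hz, rfl⟩
                rw [hC] at hwC ⊢
                exact Relation.ReflTransGen.tail hwC ⟨hz, ⟨trivial, hzx⟩⟩
            · rintro ⟨z', hz', rfl⟩; exact hz'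
          rw [h2, Set.ncard_image_of_injective _ Subtype.val_injective] at h1
          exact h1
      have hux : u ≠ x := fun e => hu.2 e
      have hvx : v ≠ x := fun e => hv.2 e
      by_cases hs : s ∈ C u
      · refine key v hvx ⟨u, hux, ?_⟩ ?_
        · intro h
          rw [hC] at h
          exact huv (gen_symm hsym hv h).2
        · intro h
          rw [hC] at h hs
          exact huv (hs.trans (gen_symm hsym hv h).2)
      · exact key u hux ⟨v, hvx, fun h => huv ((hC _ _).mp h)⟩ hs

theorem deg_of_critical {V : Type} [Finite V] {A : V → V → Prop}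
    (hsym : ∀ u v, A u v → A v u) (hirr : ∀ v, ¬ A v v) {D : ℕ}
    (hno : ¬ ∃ c : V → Fin D, ∀ u v, A u v → c u ≠ c v)
    (hcrit : ∀ x, ∃ c : V → Fin D, ∀ u v, u ≠ x → v ≠ x → A u v → c u ≠ c v) (v : V) :
    D ≤ Set.ncard {w | A v w} := by
  classical
  by_contra hlt
  obtain ⟨c, hc⟩ := hcrit v
  have h1 : Set.ncard (c '' {w | A v w}) < D := by
    have := Set.ncard_image_le (f := c) (Set.toFinite {w | A v w})
    omega
  obtain ⟨k, hk⟩ : ∃ k : Fin D, k ∉ c '' {w | A v w} := by
    by_contra hall
    push Not at hall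
    have : c '' {w | A v w} = Set.univ := Set.eq_univ_of_forall hall
    rw [this, Set.ncard_univ, Nat.card_eq_fintype_card, Fintype.card_fin] at h1
    omega
  apply hno
  refine ⟨Function.update c v k, ?_⟩
  intro u w huw
  by_cases hu : u = v
  · subst hu
    have hw : w ≠ u := by rintro rfl; exact hirr _ huw
    rw [Function.update_self, Function.update_of_ne hw]
    intro he
    exact hk ⟨w, huw, he.symm⟩
  · by_cases hw : w = v
    · subst hw
      rw [Function.update_self, Function.update_of_ne hu]
      intro he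
      exact hk ⟨u, hsym _ _ huw, he⟩
    · rw [Function.update_of_ne hu, Function.update_of_ne hw]
      exact hc u w hu hw huw

theorem neck_of_chrom {D p : ℕ} (hD : 3 ≤ D) (hp : 1 ≤ p) (hthm : TwoConn D p) (n : ℕ) :
    ∀ (V : Type) [Finite V]
    (A : V → V → Prop), Nat.card V = n → (∀ u v, A u v → A v u) → (∀ v, ¬ A v v) →
    (¬ ∃ c : V → Fin D, ∀ u v, A u v → c u ≠ c v) → HasNeck A (p + 1) := by
  classical
  induction n using Nat.strong_induction_on with
  | _ n ih =>
    intro V _ A hn hsym hirr hno
    by_cases hcrit : ∀ x, ∃ c : V → Fin D, ∀ u v, u ≠ x → v ≠ x → A u v → c u ≠ c v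
    · obtain ⟨v₀, _⟩ : ∃ v : V, True := by
        by_contra h
        push Not at h
        exact hno ⟨fun v => (h v).elim, fun u => (h u).elim⟩
      have hdeg := deg_of_critical hsym hirr hno hcrit
      have h0 : 1 < Set.ncard {w | A v₀ w} := by have := hdeg v₀; omega
      obtain ⟨w, hw, hwv⟩ := Set.exists_ne_of_one_lt_ncard h0 v₀
      exact neck_of_deg hD hp hthm _ V A rfl hsym hirr v₀ ⟨w, hwv⟩ (fun v _ => hdeg v)
    · push Not at hcrit
      obtain ⟨x, hx⟩ := hcrit
      have hlt : Nat.card {w : V // w ≠ x} < n := by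
        rw [← hn]
        have : Fintype V := Fintype.ofFinite V
        rw [Nat.card_eq_fintype_card, Nat.card_eq_fintype_card]
        exact Fintype.card_subtype_lt (x := x) (by simp)
      refine neck_map (A' := fun u v : {w : V // w ≠ x} => A u v) Subtype.val
        Subtype.val_injective (fun _ _ h => h)
        (ih _ hlt _ _ rfl (fun u v h => hsym _ _ h) (fun v => hirr _) ?_)
      rintro ⟨c, hc⟩
      obtain ⟨u, v, hu, hv, huv, he⟩ := hx (fun w => if h : w ≠ x then c ⟨w, h⟩ else
        ⟨0, by omega⟩)
      refine hc ⟨u, hu⟩ ⟨v, hv⟩ huv ?_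
      simpa [hu, hv] using he

end Pool.Agent.SymMader
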