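import Pool.Agent.SymMader.Basic

/-!
# Symmetric digraphs: connectivity and ears
-/

set_option autoImplicit false

namespace Pool.Agent.SymMader

open Pool.Agent.Hhelper50.Mader

variable {V : Type}

/-- The set of the first `m` values of `r`. -/
def img (r : ℕ → V) (m : ℕ) : Set V := {v | ∃ j, j < m ∧ v = r j}

theorem gen_mono {A : V → V → Prop} {S T : Set V} (hST : S ⊆ T) {u v : V}
    (h : Relation.ReflTransGen (fun a b => A a b ∧ b ∈ S) u v) :
    Relation.ReflTransGen (fun a b => A a b ∧ b ∈ T) u v := by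
  induction h with
  | refl => exact Relation.ReflTransGen.refl
  | tail _ h ih => exact ih.tail ⟨h.1, hST h.2⟩

theorem conn_insert {A : V → V → Prop} (hsym : ∀ u v, A u v → A v u) {S : Set V} {u v : V}
    (h : Conn A S) (hu : u ∈ S) (huv : A u v) : Conn A (S ∪ {v}) := by
  have hsub : S ⊆ S ∪ {v} := Set.subset_union_left
  intro s hs t ht
  have h1 : Relation.ReflTransGen (fun a b => A a b ∧ b ∈ S ∪ {v}) s u := by
    rcases hs with hs | hs
    · exact gen_mono hsub (h s hs u hu)
    · rw [Set.mem_singleton_iff.mp hs]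
      exact Relation.ReflTransGen.single ⟨hsym _ _ huv, hsub hu⟩
  have h2 : Relation.ReflTransGen (fun a b => A a b ∧ b ∈ S ∪ {v}) u t := by
    rcases ht with ht | ht
    · exact gen_mono hsub (h u hu t ht)
    · rw [Set.mem_singleton_iff.mp ht]
      exact Relation.ReflTransGen.single ⟨huv, Or.inr rfl⟩
  exact h1.trans h2

theorem img_succ (r : ℕ → V) (m : ℕ) : img r (m + 1) = img r m ∪ {r m} := by
  ext v
  constructor
  · rintro ⟨j, hj, rfl⟩
    rcases Nat.lt_succ_iff_lt_or_eq.mp hj with h | h
    · exact Or.inl ⟨j, h, rfl⟩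
    · right; simp [h]
  · rintro (⟨j, hj, rfl⟩ | h)
    · exact ⟨j, by omega, rfl⟩
    · exact ⟨m, by omega, h⟩

theorem conn_attach {A : V → V → Prop} (hsym : ∀ u v, A u v → A v u) {S : Set V} {a : V}
    {r : ℕ → V} {k : ℕ} (h : Conn A S) (ha : a ∈ S) (har : A a (r 0))
    (hr : ∀ i, i + 1 < k → A (r i) (r (i + 1))) (m : ℕ) (hm : m ≤ k) : Conn A (S ∪ img r m) := by
  induction m with
  | zero =>
    have : S ∪ img r 0 = S := by
      ext v; constructor
      · rintro (h | ⟨j, hj, _⟩)
        · exact h
        · omega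
      · exact Or.inl
    rw [this]; exact h
  | succ m ih =>
    have ih' := ih (by omega)
    rw [img_succ, ← Set.union_assoc]
    rcases Nat.eq_zero_or_pos m with h0 | h0
    · subst h0
      exact conn_insert hsym ih' (Or.inl ha) har
    · have : A (r (m - 1)) (r m) := by
        have := hr (m - 1) (by omega)
        rwa [Nat.sub_add_cancel h0] at this
      exact conn_insert hsym ih' (Or.inr ⟨m - 1, by omega, rfl⟩) this

/-- Adding an ear keeps the property of having no cut vertex. -/
theorem K2.ear {A : V → V → Prop} (hsym : ∀ u v, A u v → A v u) {B : Set V} (hB : K2 A B)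
    {a d : V} (ha : a ∈ B) (hd : d ∈ B) (had : a ≠ d) {r : ℕ → V} {k : ℕ}
    (hr : PathOn A Bᶜ k r) (har : A a (r 0)) (hrd : A (r (k - 1)) d) : K2 A (B ∪ img r k) := by
  obtain ⟨⟨u, hu, w, hw, huw⟩, hc, hcut⟩ := hB
  obtain ⟨hrB, hradj, hrinj⟩ := hr
  -- the reversed ear
  have hradj' : ∀ i, i + 1 < k → A ((fun j => r (k - 1 - j)) i) ((fun j => r (k - 1 - j)) (i + 1)) := by
    intro i hi
    have := hradj (k - 1 - (i + 1)) (by omega)
    have e : k - 1 - (i + 1) + 1 = k - 1 - i := by omega
    rw [e] at this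
    exact hsym _ _ this
  have hdr : A d ((fun j => r (k - 1 - j)) 0) := by simpa using hsym _ _ hrd
  refine ⟨⟨u, Or.inl hu, w, Or.inl hw, huw⟩, conn_attach hsym hc ha har hradj k le_rfl, ?_⟩
  intro x hx
  rcases hx with hx | ⟨i, hi, rfl⟩
  · -- a vertex of `B` is deleted
    have hxr : x ∉ img r k := by
      rintro ⟨j, hj, rfl⟩; exact hrB j hj hx
    have e : (B ∪ img r k) \ {x} = (B \ {x}) ∪ img r k := by
      ext v; simp only [Set.mem_sdiff, Set.mem_union, Set.mem_singleton_iff]
      constructor
      · rintro ⟨h | h, h'⟩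
        · exact Or.inl ⟨h, h'⟩
        · exact Or.inr h
      · rintro (⟨h, h'⟩ | h)
        · exact ⟨Or.inl h, h'⟩
        · exact ⟨Or.inr h, fun e => hxr (e ▸ h)⟩
    rw [e]
    by_cases hxa : a = x
    · have hdx : d ∈ B \ {x} := ⟨hd, fun e => had (hxa.trans e.symm)⟩
      have := conn_attach hsym (hcut x hx) hdx hdr hradj' k le_rfl
      have e2 : img (fun j => r (k - 1 - j)) k = img r k := by
        ext v; constructor
        · rintro ⟨j, hj, rfl⟩; exact ⟨k - 1 - j, by omega, rfl⟩
        · rintro ⟨j, hj, rfl⟩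
          refine ⟨k - 1 - j, by omega, ?_⟩
          have : k - 1 - (k - 1 - j) = j := by omega
          simp only [this]
      rwa [e2] at this
    · exact conn_attach hsym (hcut x hx) ⟨ha, hxa⟩ har hradj k le_rfl
  · -- a vertex of the ear is deleted
    have e : (B ∪ img r k) \ {r i} = (B ∪ img r i) ∪ img (fun j => r (k - 1 - j)) (k - 1 - i) := by
      ext v; simp only [Set.mem_sdiff, Set.mem_union, Set.mem_singleton_iff]
      constructor
      · rintro ⟨h | ⟨j, hj, rfl⟩, h'⟩
        · exact Or.inl (Or.inl h)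
        · rcases lt_trichotomy j i with h | h | h
          · exact Or.inl (Or.inr ⟨j, h, rfl⟩)
          · exact absurd (by rw [h]) h'
          · right
            refine ⟨k - 1 - j, by omega, ?_⟩
            have : k - 1 - (k - 1 - j) = j := by omega
            simp only [this]
      · rintro ((h | ⟨j, hj, rfl⟩) | ⟨j, hj, rfl⟩)
        · exact ⟨Or.inl h, fun e => hrB i hi (e ▸ h)⟩
        · refine ⟨Or.inr ⟨j, by omega, rfl⟩, fun e => ?_⟩
          have := hrinj j i (by omega) hi e
          omega
        · refine ⟨Or.inr ⟨k - 1 - j, by omega, rfl⟩, fun e => ?_⟩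
          have := hrinj (k - 1 - j) i (by omega) hi e
          omega
    rw [e]
    have h1 := conn_attach hsym hc ha har hradj i (by omega)
    exact conn_attach hsym h1 (Or.inl hd) hdr hradj' (k - 1 - i) (by omega)

end Pool.Agent.SymMader
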