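import Pool.Agent.SymMader.Links

/-!
# Longest paths outside `B`
-/

set_option autoImplicit false

namespace Pool.Agent.SymMader

open Pool.Agent.Hhelper50.Mader

variable {V : Type}

/-- The positions of the neighbours of the first vertex on the path. -/
def Idx (A : V → V → Prop) (n : ℕ) (x : ℕ → V) : Set ℕ := {i | 1 ≤ i ∧ i < n ∧ A (x 0) (x i)}

theorem idx_finite (A : V → V → Prop) (n : ℕ) (x : ℕ → V) : (Idx A n x).Finite :=
  (Set.finite_Iio n).subset (fun _ hi => hi.2.1)

theorem nbr_start {A : V → V → Prop} (hsym : ∀ u v, A u v → A v u) (hirr : ∀ v, ¬ A v v)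
    {B : Set V} {n : ℕ} (hmax : ¬ HasPath A Bᶜ (n + 1)) {x : ℕ → V} (hx : PathOn A Bᶜ n x)
    {w : V} (hw : A (x 0) w) : w ∈ B ∨ ∃ i, i ∈ Idx A n x ∧ w = x i := by
  by_contra hcon
  push Not at hcon
  obtain ⟨hwB, hwi⟩ := hcon
  obtain ⟨h1, h2, h3⟩ := hx
  have hne : ∀ i, i < n → w ≠ x i := by
    intro i hi he
    rcases Nat.eq_zero_or_pos i with h | h
    · subst h; rw [he] at hw; exact hirr _ hw
    · exact hwi i ⟨h, hi, he ▸ hw⟩ he
  apply hmax
  refine ⟨fun j => if j = 0 then w else x (j - 1), ?_, ?_, ?_⟩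
  · intro i hi
    by_cases h : i = 0
    · simpa [h] using hwB
    · simp only [h, if_false]; exact h1 _ (by omega)
  · intro i hi
    by_cases h : i = 0
    · subst h; simpa using hsym _ _ hw
    · have h' : i + 1 ≠ 0 := by omega
      simp only [h, h', if_false]
      have := h2 (i - 1) (by omega)
      have e : i - 1 + 1 = i + 1 - 1 := by omega
      rwa [e] at this
  · intro i j hi hj he
    by_cases h : i = 0
    · by_cases h' : j = 0
      · omega
      · simp only [h, h', if_true, if_false] at he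
        exact absurd he (hne _ (by omega))
    · by_cases h' : j = 0
      · simp only [h, h', if_true, if_false] at he
        exact absurd he.symm (hne _ (by omega))
      · simp only [h, h', if_false] at he
        have := h3 _ _ (by omega) (by omega) he
        omega

theorem card_start [Finite V] {A : V → V → Prop} (hsym : ∀ u v, A u v → A v u)
    (hirr : ∀ v, ¬ A v v) {B : Set V} {n : ℕ} (hmax : ¬ HasPath A Bᶜ (n + 1)) {x : ℕ → V}
    (hx : PathOn A Bᶜ n x) :
    Set.ncard {w | A (x 0) w} ≤ Set.ncard (Idx A n x) + Set.ncard {w | A (x 0) w ∧ w ∈ B} := by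
  have hsub : {w | A (x 0) w} ⊆ x '' (Idx A n x) ∪ {w | A (x 0) w ∧ w ∈ B} := by
    intro w hw
    rcases nbr_start hsym hirr hmax hx hw with h | ⟨i, hi, rfl⟩
    · exact Or.inr ⟨hw, h⟩
    · exact Or.inl ⟨i, hi, rfl⟩
  have h1 : Set.ncard {w | A (x 0) w} ≤
      Set.ncard (x '' (Idx A n x) ∪ {w | A (x 0) w ∧ w ∈ B}) :=
    Set.ncard_le_ncard hsub (Set.toFinite _)
  have h2 := Set.ncard_union_le (x '' (Idx A n x)) {w | A (x 0) w ∧ w ∈ B}
  have h3 := Set.ncard_image_le (f := x) (idx_finite A n x)
  omega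

/-- Rotation of a path. -/
theorem rot {A : V → V → Prop} (hsym : ∀ u v, A u v → A v u) {S : Set V} {n : ℕ} {x : ℕ → V}
    (hx : PathOn A S n x) {i : ℕ} (hi : i ∈ Idx A n x) :
    ∃ y : ℕ → V, PathOn A S n y ∧ (∀ s, s < i → y s = x (i - 1 - s)) ∧ ∀ s, i ≤ s → y s = x s := by
  obtain ⟨h1, h2, h3⟩ := hx
  obtain ⟨hi1, hin, hA⟩ := hi
  obtain ⟨y, hy⟩ : ∃ y : ℕ → V, y = fun s => if s < i then x (i - 1 - s) else x s := ⟨_, rfl⟩
  have e1 : ∀ s, s < i → y s = x (i - 1 - s) := by intro s hs; simp [hy, hs]
  have e2 : ∀ s, i ≤ s → y s = x s := by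
    intro s hs
    have : ¬ s < i := by omega
    simp [hy, this]
  refine ⟨y, ⟨?_, ?_, ?_⟩, e1, e2⟩
  · intro s hs
    rcases Nat.lt_or_ge s i with h | h
    · rw [e1 s h]; exact h1 _ (by omega)
    · rw [e2 s h]; exact h1 _ hs
  · intro s hs
    rcases Nat.lt_or_ge (s + 1) i with h | h
    · rw [e1 s (by omega), e1 (s + 1) h]
      have := h2 (i - 1 - (s + 1)) (by omega)
      have e : i - 1 - (s + 1) + 1 = i - 1 - s := by omega
      rw [e] at this
      exact hsym _ _ this
    · rcases Nat.lt_or_ge s i with h' | h'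
      · rw [e1 s h', e2 (s + 1) h]
        have e : i - 1 - s = 0 := by omega
        have e' : s + 1 = i := by omega
        rw [e, e']; exact hA
      · rw [e2 s h', e2 (s + 1) h]; exact h2 s hs
  · intro s t hs ht he
    rcases Nat.lt_or_ge s i with h | h
    · rcases Nat.lt_or_ge t i with h' | h'
      · rw [e1 s h, e1 t h'] at he
        have := h3 _ _ (by omega) (by omega) he
        omega
      · rw [e1 s h, e2 t h'] at he
        have := h3 _ _ (by omega) (by omega) he
        omega
    · rcases Nat.lt_or_ge t i with h' | h'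
      · rw [e2 s h, e1 t h'] at he
        have := h3 _ _ (by omega) (by omega) he
        omega
      · rw [e2 s h, e2 t h'] at he
        exact h3 _ _ hs ht he

/-- The situation of the main case. -/
structure Setup (A : V → V → Prop) (B : Set V) (q n : ℕ) : Prop where
  sym : ∀ u v, A u v → A v u
  irr : ∀ v, ¬ A v v
  hq : 2 ≤ q
  deg : ∀ v, v ∉ B → q + 1 ≤ Set.ncard {w | A v w}
  conn : K2 A Set.univ
  kB : K2 A B
  noear : NoEar A B q
  notheta : ¬ Theta A (q + 1)
  lt : q < n
  max : ¬ HasPath A Bᶜ (n + 1)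

namespace Setup

variable {A : V → V → Prop} {B : Set V} {q n : ℕ} {x : ℕ → V}

theorem uniq (H : Setup A B q n) (hx : PathOn A Bᶜ n x) {a d : V} (ha : a ∈ B) (hd : d ∈ B)
    (hxa : A (x 0) a) (hxd : A (x 0) d) : a = d := by
  by_contra hne
  obtain ⟨h1, h2, h3⟩ := hx
  have hlt := H.lt
  refine H.noear 1 (fun _ => x 0) a d le_rfl ⟨?_, ?_, ?_⟩ ha hd hne (H.sym _ _ hxa) hxd ?_
  · intro i hi; exact h1 0 (by omega)
  · intro i hi; omega
  · intro i j hi hj _; omega
  · refine ⟨fun j => x (j + 1), ?_, ?_, ?_⟩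
    · intro i hi
      rintro (h | ⟨j, _, h⟩)
      · exact h1 (i + 1) (by omega) h
      · have := h3 _ _ (by omega) (by omega) h
        omega
    · intro i hi; exact h2 (i + 1) (by omega)
    · intro i j hi hj he
      have := h3 _ _ (by omega) (by omega) he
      omega

theorem le (H : Setup A B q n) (hx : PathOn A Bᶜ n x) {i : ℕ} (hi : i ∈ Idx A n x) :
    i + 1 ≤ 2 * q := by
  by_contra hcon
  obtain ⟨h1, h2, h3⟩ := hx
  obtain ⟨hi1, hin, hA⟩ := hi
  have hq := H.hq
  refine no_long_cycle H.sym (by omega) H.conn H.kB H.noear (n := i + 1) (by omega)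
    (c := fun s => x (s % (i + 1))) ⟨by omega, ?_, ?_, ?_, ?_⟩
  · intro s
    have hs : s % (i + 1) < i + 1 := Nat.mod_lt _ (by omega)
    rcases Nat.lt_or_ge (s % (i + 1) + 1) (i + 1) with h | h
    · have e : (s + 1) % (i + 1) = s % (i + 1) + 1 := by
        rw [Nat.add_mod, Nat.mod_eq_of_lt (show 1 < i + 1 by omega), Nat.mod_eq_of_lt h]
      show A (x (s % (i + 1))) (x ((s + 1) % (i + 1)))
      rw [e]; exact h2 _ (by omega)
    · have e0 : s % (i + 1) = i := by omega
      have e : (s + 1) % (i + 1) = 0 := by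
        rw [Nat.add_mod, Nat.mod_eq_of_lt (show 1 < i + 1 by omega), e0, Nat.mod_self]
      show A (x (s % (i + 1))) (x ((s + 1) % (i + 1)))
      rw [e, e0]; exact H.sym _ _ hA
  · intro s
    have hs : s % (i + 1) < i + 1 := Nat.mod_lt _ (by omega)
    exact h1 _ (by omega)
  · intro s t he
    have hs : s % (i + 1) < i + 1 := Nat.mod_lt _ (by omega)
    have ht : t % (i + 1) < i + 1 := Nat.mod_lt _ (by omega)
    exact h3 _ _ (by omega) (by omega) he
  · intro s
    show x ((s + (i + 1)) % (i + 1)) = x (s % (i + 1))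
    rw [Nat.add_mod_right]

theorem gap (H : Setup A B q n) (hx : PathOn A Bᶜ n x) {i : ℕ} (hi : i ∈ Idx A n x)
    (hj : i + q ∈ Idx A n x) : False := by
  obtain ⟨h1, h2, h3⟩ := hx
  obtain ⟨hi1, hin, hA⟩ := hi
  obtain ⟨hj1, hjn, hA'⟩ := hj
  have hq := H.hq
  apply H.notheta
  refine theta_of_cycle H.sym (fun j => if j = 0 then x 0 else x (i + (j - 1))) ?_ ?_ ?_
  · intro j hj
    by_cases h : j = 0
    · subst h; simpa using hA
    · have h' : j + 1 ≠ 0 := by omega
      simp only [h, h', if_false]
      have := h2 (i + (j - 1)) (by omega)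
      have e : i + (j - 1) + 1 = i + (j + 1 - 1) := by omega
      rwa [e] at this
  · intro j k hj hk he
    by_cases h : j = 0
    · by_cases h' : k = 0
      · omega
      · simp only [h, h', if_true, if_false] at he
        have := h3 _ _ (by omega) (by omega) he
        omega
    · by_cases h' : k = 0
      · simp only [h, h', if_true, if_false] at he
        have := h3 _ _ (by omega) (by omega) he
        omega
      · simp only [h, h', if_false] at he
        have := h3 _ _ (by omega) (by omega) he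
        omega
  · have h' : q + 1 ≠ 0 := by omega
    simp only [h', if_false, if_true]
    have e : i + (q + 1 - 1) = i + q := by omega
    rw [e]; exact H.sym _ _ hA'

theorem main_count [Finite V] (H : Setup A B q n) (hx : PathOn A Bᶜ n x) :
    (∃ β, β ∈ B ∧ A (x 0) β) ∧ ∀ j, 1 ≤ j → j ≤ q → j ∈ Idx A n x ∨ j + q ∈ Idx A n x := by
  classical
  have hc := card_start H.sym H.irr H.max hx
  have hdeg := H.deg (x 0) (hx.1 0 (by have := H.lt; omega))
  have hB1 : Set.ncard {w | A (x 0) w ∧ w ∈ B} ≤ 1 := by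
    rw [Set.ncard_le_one (Set.toFinite _)]
    intro a ha d hd
    exact H.uniq hx ha.2 hd.2 ha.1 hd.1
  -- the positions modulo `q`
  have hinj : Set.InjOn (fun i => if i ≤ q then i else i - q) (Idx A n x) := by
    intro i hi j hj he
    have hi' := H.le hx hi
    have hj' := H.le hx hj
    have hi1 := hi.1
    have hj1 := hj.1
    simp only at he
    by_cases h : i ≤ q
    · by_cases h' : j ≤ q
      · simpa [h, h'] using he
      · simp only [h, h', if_true, if_false] at he
        have e : i + q = j := by omega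
        exact (H.gap hx hi (by rw [e]; exact hj)).elim
    · by_cases h' : j ≤ q
      · simp only [h, h', if_true, if_false] at he
        have e : j + q = i := by omega
        exact (H.gap hx hj (by rw [e]; exact hi)).elim
      · simp only [h, h', if_false] at he
        omega
  have himg : (fun i => if i ≤ q then i else i - q) '' (Idx A n x) ⊆ Set.Icc 1 q := by
    rintro _ ⟨i, hi, rfl⟩
    have hi' := H.le hx hi
    have hi1 := hi.1
    show 1 ≤ (if i ≤ q then i else i - q) ∧ (if i ≤ q then i else i - q) ≤ q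
    by_cases h : i ≤ q
    · rw [if_pos h]; exact ⟨hi1, h⟩
    · rw [if_neg h]; omega
  have hIcc : Set.ncard (Set.Icc 1 q) = q := by
    have : (Set.Icc 1 q : Set ℕ) = ((Finset.Icc 1 q : Finset ℕ) : Set ℕ) := by simp
    rw [this, Set.ncard_coe_finset]; simp
  have hcard := hinj.ncard_image
  have hle : Set.ncard ((fun i => if i ≤ q then i else i - q) '' (Idx A n x)) ≤ q := by
    have := Set.ncard_le_ncard himg (Set.finite_Icc 1 q)
    omega
  constructor
  · have : 0 < Set.ncard {w | A (x 0) w ∧ w ∈ B} := by omega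
    obtain ⟨w, hw⟩ := (Set.ncard_pos (Set.toFinite _)).mp this
    exact ⟨w, hw.2, hw.1⟩
  · intro j hj1 hjq
    have heq : (fun i => if i ≤ q then i else i - q) '' (Idx A n x) = Set.Icc 1 q :=
      Set.eq_of_subset_of_ncard_le himg (by omega) (Set.finite_Icc 1 q)
    have hj : j ∈ (fun i => if i ≤ q then i else i - q) '' (Idx A n x) := by
      rw [heq]; exact ⟨hj1, hjq⟩
    obtain ⟨i, hi, he⟩ := hj
    simp only at he
    by_cases h : i ≤ q
    · simp only [h, if_true] at he
      subst he; exact Or.inl hi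
    · simp only [h, if_false] at he
      have e : j + q = i := by omega
      right; rw [e]; exact hi

theorem three (H : Setup A B q n) (hx : PathOn A Bᶜ n x) {a d : V} (ha : a ∈ B) (hd : d ∈ B)
    (hxa : A (x 0) a) (hxd : A (x (q - 1)) d) : a = d := by
  by_contra hne
  have hq := H.hq
  have hlt := H.lt
  obtain ⟨h1, h2, h3⟩ := hx
  exact H.notheta (theta_of_ear H.sym H.irr H.kB (by omega)
    (y := x) ⟨fun i hi => h1 i (by omega), fun i hi => h2 i (by omega),
      fun i j hi hj => h3 i j (by omega) (by omega)⟩ ha hd hne (H.sym _ _ hxa) hxd)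

theorem four (H : Setup A B q n) (hx : PathOn A Bᶜ n x) {i : ℕ} (hi : 2 ≤ i)
    (hI : i + q - 2 ∈ Idx A n x) {β : V} (hβ : β ∈ B) (h0 : A (x 0) β) (hb : A (x (i - 1)) β) :
    False := by
  obtain ⟨h1, h2, h3⟩ := hx
  obtain ⟨hi1, hin, hA⟩ := hI
  have hq := H.hq
  have hlt := H.lt
  apply H.notheta
  obtain ⟨z, hz⟩ : ∃ z : ℕ → V, z = fun j => if j = 0 then β else if j = 1 then x 0 else
    x (i + q - j) := ⟨_, rfl⟩
  have z0 : z 0 = β := by simp [hz]
  have z1 : z 1 = x 0 := by simp [hz]
  have z2 : ∀ j, 2 ≤ j → z j = x (i + q - j) := by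
    intro j hj
    have e1 : j ≠ 0 := by omega
    have e2 : j ≠ 1 := by omega
    simp [hz, e1, e2]
  have hne : ∀ k, k < n → x k ≠ β := fun k hk he => h1 k hk (he ▸ hβ)
  refine theta_of_cycle H.sym z ?_ ?_ ?_
  · intro j hj
    rcases Nat.lt_or_ge j 2 with h | h
    · rcases Nat.lt_or_ge j 1 with h' | h'
      · obtain rfl : j = 0 := by omega
        rw [z0, z1]; exact H.sym _ _ h0
      · obtain rfl : j = 1 := by omega
        rw [z1, z2 (1 + 1) (by omega)]
        have e : i + q - (1 + 1) = i + q - 2 := by omega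
        rw [e]; exact hA
    · rw [z2 j h, z2 (j + 1) (by omega)]
      have := h2 (i + q - (j + 1)) (by omega)
      have e : i + q - (j + 1) + 1 = i + q - j := by omega
      rw [e] at this
      exact H.sym _ _ this
  · have key : ∀ j k, j < k → k ≤ q + 1 → z j = z k → False := by
      intro j k hjk hk he
      rcases Nat.lt_or_ge j 2 with h | h
      · rcases Nat.lt_or_ge j 1 with h' | h'
        · obtain rfl : j = 0 := by omega
          rcases Nat.lt_or_ge k 2 with g | g
          · obtain rfl : k = 1 := by omega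
            rw [z0, z1] at he
            exact hne 0 (by omega) he.symm
          · rw [z0, z2 k g] at he
            exact hne _ (by omega) he.symm
        · obtain rfl : j = 1 := by omega
          rw [z1, z2 k (by omega)] at he
          have := h3 _ _ (by omega) (by omega) he
          omega
      · rw [z2 j h, z2 k (by omega)] at he
        have := h3 _ _ (by omega) (by omega) he
        omega
    intro j k hj hk he
    rcases lt_trichotomy j k with h | h | h
    · exact (key j k h hk he).elim
    · exact h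
    · exact (key k j h hj he.symm).elim
  · rw [z2 (q + 1) (by omega), z0]
    have e : i + q - (q + 1) = i - 1 := by omega
    rw [e]; exact hb

theorem q_mem [Finite V] (H : Setup A B q n) (hx : PathOn A Bᶜ n x) : q ∈ Idx A n x := by
  have hq := H.hq
  rcases (H.main_count hx).2 q (by omega) le_rfl with h | h
  · exact h
  · have := H.le hx h
    omega

theorem five [Finite V] (H : Setup A B q n) (hx : PathOn A Bᶜ n x) {i : ℕ} (hi : i ∈ Idx A n x)
    (hi2 : 2 ≤ i) (hiq : i ≤ q) {β : V} (hβ : β ∈ B) (h0 : A (x 0) β) : A (x (i - 1)) β := by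
  have hq := H.hq
  have hlt := H.lt
  -- the vertex `x (q - 1)`
  obtain ⟨y, hy, e1, _⟩ := rot H.sym hx (H.q_mem hx)
  obtain ⟨⟨d, hd, hyd⟩, _⟩ := H.main_count hy
  rw [e1 0 (by omega), Nat.sub_zero] at hyd
  have e := H.three hx hβ hd h0 hyd
  rw [← e] at hyd
  rcases Nat.lt_or_ge i q with h | h
  · obtain ⟨y', hy', e1', e2'⟩ := rot H.sym hx hi
    obtain ⟨⟨d', hd', hyd'⟩, _⟩ := H.main_count hy'
    have e' := H.three hy' hd' hβ hyd' (by rw [e2' (q - 1) (by omega)]; exact hyd)
    rw [e1' 0 (by omega), Nat.sub_zero, e'] at hyd'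
    exact hyd'
  · have e3 : i = q := by omega
    rw [e3]; exact hyd

theorem two_not [Finite V] (H : Setup A B q n) (hx : PathOn A Bᶜ n x) : 2 ∉ Idx A n x := by
  intro h2
  have hq := H.hq
  obtain ⟨⟨β, hβ, h0⟩, _⟩ := H.main_count hx
  have h1 := H.five hx h2 le_rfl hq hβ h0
  refine H.four hx (i := 2) le_rfl ?_ hβ h0 h1
  have e : 2 + q - 2 = q := by omega
  rw [e]; exact H.q_mem hx

theorem step [Finite V] (H : Setup A B q n) (hx : PathOn A Bᶜ n x) {i : ℕ} (hi : i ∈ Idx A n x)
    (hi3 : 3 ≤ i) (hiq : i ≤ q) : i - 2 ∈ Idx A n x := by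
  obtain ⟨⟨β, hβ, h0⟩, halt⟩ := H.main_count hx
  rcases halt (i - 2) (by omega) (by omega) with h | h
  · exact h
  · have h1 := H.five hx hi (by omega) hiq hβ h0
    refine (H.four hx (i := i) (by omega) ?_ hβ h0 h1).elim
    have e : i + q - 2 = i - 2 + q := by omega
    rw [e]; exact h

theorem descend [Finite V] (H : Setup A B q n) (hx : PathOn A Bᶜ n x) (k : ℕ) :
    2 * k < q → q - 2 * k ∈ Idx A n x := by
  induction k with
  | zero => intro _; simpa using H.q_mem hx
  | succ k ih =>
    intro hk
    have h1 := ih (by omega)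
    rcases Nat.lt_or_ge (q - 2 * k) 3 with h | h
    · have e : q - 2 * k = 3 ∨ q - 2 * k = 2 := by omega
      rcases e with e | e
      · omega
      · omega
    · have := H.step hx h1 h (by omega)
      have e : q - 2 * k - 2 = q - 2 * (k + 1) := by omega
      rwa [e] at this

/-- The main case is impossible. -/
theorem absurd [Finite V] (H : Setup A B q n) (hx : PathOn A Bᶜ n x) : False := by
  have hq := H.hq
  have hlt := H.lt
  have h2 := H.two_not hx
  -- `q` is odd
  obtain ⟨t, ht⟩ : ∃ t, q = 2 * t + 1 := by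
    rcases Nat.even_or_odd' q with ⟨t, h | h⟩
    · exfalso
      have := H.descend hx (t - 1) (by omega)
      have e : q - 2 * (t - 1) = 2 := by omega
      rw [e] at this
      exact h2 this
    · exact ⟨t, h⟩
  have h3 : 3 ∈ Idx A n x := by
    have := H.descend hx (t - 1) (by omega)
    have e : q - 2 * (t - 1) = 3 := by omega
    rwa [e] at this
  obtain ⟨⟨β, hβ, h0⟩, halt⟩ := H.main_count hx
  have hq2 : q + 2 ∈ Idx A n x := by
    rcases halt 2 (by omega) (by omega) with h | h
    · exact (h2 h).elim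
    · rwa [Nat.add_comm] at h
  have hb2 : A (x 2) β := H.five hx h3 (by omega) (by omega) hβ h0
  have hbq : A (x (q + 1)) β := by
    obtain ⟨y, hy, e1, _⟩ := rot H.sym hx hq2
    obtain ⟨⟨d, hd, hyd⟩, _⟩ := H.main_count hy
    have e2 : y (q - 1) = x 2 := by
      rw [e1 (q - 1) (by omega)]; congr 1; omega
    have e := H.three hy hd hβ hyd (by rw [e2]; exact hb2)
    rw [e1 0 (by omega), e] at hyd
    have e3 : q + 2 - 1 - 0 = q + 1 := by omega
    rwa [e3] at hyd
  obtain ⟨h1, h2', h3'⟩ := hx
  obtain ⟨_, hqn, hA⟩ := hq2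
  apply H.notheta
  refine ⟨x, {x (q + 2)}, {β}, fun i hi => h2' i (by omega),
    fun i j hi hj => h3' i j (by omega) (by omega), ?_, ?_, ?_, ?_, ?_⟩
  · intro i hi h
    have := h3' _ _ (by omega) (by omega) (Set.mem_singleton_iff.mp h)
    omega
  · intro i hi h
    have := Set.mem_singleton_iff.mp h
    exact h1 i (by omega) (this ▸ hβ)
  · intro v hv hv'
    rw [Set.mem_singleton_iff] at hv hv'
    rw [hv] at hv'
    exact h1 (q + 2) hqn (hv' ▸ hβ)
  · refine ⟨2, fun j => if j = 0 then x (q + 1) else if j = 1 then x (q + 2) else x 0,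
      by omega, by simp, by simp, ?_, ?_⟩
    · intro i hi
      rcases Nat.lt_or_ge i 1 with h | h
      · obtain rfl : i = 0 := by omega
        simpa using h2' (q + 1) (by omega)
      · obtain rfl : i = 1 := by omega
        simpa using H.sym _ _ hA
    · intro i hi0 hi
      obtain rfl : i = 1 := by omega
      simp
  · refine ⟨2, fun j => if j = 0 then x 0 else if j = 1 then β else x (q + 1),
      by omega, by simp, by simp, ?_, ?_⟩
    · intro i hi
      rcases Nat.lt_or_ge i 1 with h | h
      · obtain rfl : i = 0 := by omega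
        simpa using h0
      · obtain rfl : i = 1 := by omega
        simpa using H.sym _ _ hbq
    · intro i hi0 hi
      obtain rfl : i = 1 := by omega
      simp

end Setup

end Pool.Agent.SymMader
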