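import Pool.Agent.SymMader.Whitney

/-!
# Ears of the maximal set `B`
-/

set_option autoImplicit false

namespace Pool.Agent.SymMader

open Pool.Agent.Hhelper50.Mader

variable {V : Type}

/-- An ear with `q` inner vertices of a set without cut vertex gives the theta graph. -/
theorem theta_of_ear {A : V → V → Prop} (hsym : ∀ u v, A u v → A v u) (hirr : ∀ v, ¬ A v v)
    {B : Set V} (hB : K2 A B) {q : ℕ} (hq : 1 ≤ q) {y : ℕ → V} (hy : PathOn A Bᶜ q y)
    {a d : V} (ha : a ∈ B) (hd : d ∈ B) (hne : a ≠ d) (hay : A a (y 0)) (hyd : A (y (q - 1)) d) :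
    Theta A (q + 1) := by
  obtain ⟨hyB, hya, hyi⟩ := hy
  obtain ⟨S₁, S₂, hS1, hS2, ha1, hd1, ha2, hd2, hdis, hr1, hr2⟩ :=
    reach_of_K2 hsym hirr hB ha hd hne
  have hz0 : (fun j : ℕ => if j = 0 then a else if j ≤ q then y (j - 1) else d) 0 = a := by simp
  have hzq : (fun j : ℕ => if j = 0 then a else if j ≤ q then y (j - 1) else d) (q + 1) = d := by
    simp
  have hmem : ∀ i, i ≤ q + 1 → (fun j : ℕ => if j = 0 then a else if j ≤ q then y (j - 1) else d) i = a
      ∨ (fun j : ℕ => if j = 0 then a else if j ≤ q then y (j - 1) else d) i = d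
      ∨ (fun j : ℕ => if j = 0 then a else if j ≤ q then y (j - 1) else d) i ∉ B := by
    intro i hi
    by_cases h0 : i = 0
    · left; simp [h0]
    · by_cases h1 : i ≤ q
      · right; right
        simp only [h0, h1, if_false, if_true]
        exact hyB (i - 1) (by omega)
      · right; left
        simp [h0, h1]
  refine ⟨fun j => if j = 0 then a else if j ≤ q then y (j - 1) else d, S₁, S₂, ?_, ?_, ?_, ?_,
    hdis, ?_, ?_⟩
  · intro i hi
    by_cases h0 : i = 0
    · subst h0
      simp only [if_true]
      have h1 : (0 + 1 : ℕ) ≤ q := hq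
      simp only [h1, if_true]
      simpa using hay
    · by_cases h1 : i + 1 ≤ q
      · have h2 : i ≤ q := by omega
        have h3 : i + 1 ≠ 0 := by omega
        simp only [h0, h1, h2, h3, if_false, if_true]
        have := hya (i - 1) (by omega)
        have e : i - 1 + 1 = i + 1 - 1 := by omega
        rwa [e] at this
      · have h2 : i = q := by omega
        have h3 : i + 1 ≠ 0 := by omega
        subst h2
        simp only [h0, h1, h3, le_refl, if_false, if_true]
        exact hyd
  · intro i j hi hj he
    have f0 : ∀ i, i = 0 →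
        (fun j : ℕ => if j = 0 then a else if j ≤ q then y (j - 1) else d) i = a := by
      intro i h; simp [h]
    have fm : ∀ i, 0 < i → i ≤ q →
        (fun j : ℕ => if j = 0 then a else if j ≤ q then y (j - 1) else d) i = y (i - 1) := by
      intro i h h'
      have h0 : i ≠ 0 := by omega
      simp [h0, h']
    have fl : ∀ i, q < i →
        (fun j : ℕ => if j = 0 then a else if j ≤ q then y (j - 1) else d) i = d := by
      intro i h
      have h0 : i ≠ 0 := by omega
      have h1 : ¬ i ≤ q := by omega
      simp [h0, h1]
    rcases Nat.eq_zero_or_pos i with h1 | h1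
    · rw [f0 i h1] at he
      rcases Nat.eq_zero_or_pos j with h2 | h2
      · omega
      · rcases Nat.lt_or_ge q j with h3 | h3
        · rw [fl j h3] at he; exact absurd he hne
        · rw [fm j h2 h3] at he
          exact absurd (he ▸ ha) (hyB (j - 1) (by omega))
    · rcases Nat.lt_or_ge q i with h4 | h4
      · rw [fl i h4] at he
        rcases Nat.eq_zero_or_pos j with h2 | h2
        · rw [f0 j h2] at he; exact absurd he.symm hne
        · rcases Nat.lt_or_ge q j with h3 | h3
          · omega
          · rw [fm j h2 h3] at he
            exact absurd (he ▸ hd) (hyB (j - 1) (by omega))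
      · rw [fm i h1 h4] at he
        rcases Nat.eq_zero_or_pos j with h2 | h2
        · rw [f0 j h2] at he
          exact absurd (he ▸ ha) (hyB (i - 1) (by omega))
        · rcases Nat.lt_or_ge q j with h3 | h3
          · rw [fl j h3] at he
            exact absurd (he ▸ hd) (hyB (i - 1) (by omega))
          · rw [fm j h2 h3] at he
            have := hyi _ _ (by omega) (by omega) he
            omega
  · intro i hi
    rcases hmem i hi with h | h | h
    · rw [h]; exact ha1
    · rw [h]; exact hd1
    · exact fun h' => h (hS1 h')
  · intro i hi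
    rcases hmem i hi with h | h | h
    · rw [h]; exact ha2
    · rw [h]; exact hd2
    · exact fun h' => h (hS2 h')
  · rw [hz0, hzq]; exact hr1
  · rw [hz0, hzq]; exact hr2

end Pool.Agent.SymMader
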