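import Pool.Agent.SymMader.Core

/-!
# The theta subgraph in a 2-connected graph of given minimum degree
-/

set_option autoImplicit false

namespace Pool.Agent.SymMader

open Pool.Agent.Hhelper50.Mader

variable {V : Type}

theorem K2_pair {A : V → V → Prop} (hsym : ∀ u v, A u v → A v u) {a d : V} (hne : a ≠ d)
    (h : A a d) : K2 A ({a, d} : Set V) := by
  refine ⟨⟨a, by simp, d, by simp, hne⟩, ?_, ?_⟩
  · intro u hu v hv
    have ha : a ∈ ({a, d} : Set V) := by simp
    have hd : d ∈ ({a, d} : Set V) := by simp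
    rcases hu with rfl | hu
    · rcases hv with rfl | hv
      · exact Relation.ReflTransGen.refl
      · rw [Set.mem_singleton_iff] at hv; subst hv
        exact Relation.ReflTransGen.single ⟨h, hd⟩
    · rw [Set.mem_singleton_iff] at hu; subst hu
      rcases hv with rfl | hv
      · exact Relation.ReflTransGen.single ⟨hsym _ _ h, ha⟩
      · rw [Set.mem_singleton_iff] at hv; subst hv
        exact Relation.ReflTransGen.refl
  · intro x hx u hu v hv
    have : u = v := by
      obtain ⟨hu1, hu2⟩ := hu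
      obtain ⟨hv1, hv2⟩ := hv
      simp only [Set.mem_insert_iff, Set.mem_singleton_iff] at hx hu1 hv1 hu2 hv2
      rcases hx with rfl | rfl
      · rcases hu1 with h1 | h1
        · exact absurd h1 hu2
        · rcases hv1 with h2 | h2
          · exact absurd h2 hv2
          · rw [h1, h2]
      · rcases hu1 with h1 | h1
        · rcases hv1 with h2 | h2
          · rw [h1, h2]
          · exact absurd h2 hv2
        · exact absurd h1 hu2
    rw [this]

theorem path_le_card [Finite V] {A : V → V → Prop} {S : Set V} {n : ℕ} (h : HasPath A S n) :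
    n ≤ Nat.card V := by
  classical
  obtain ⟨x, _, _, h3⟩ := h
  have : Fintype V := Fintype.ofFinite V
  have hinj : Function.Injective (fun i : Fin n => x i) := by
    intro i j he
    exact Fin.ext (h3 _ _ i.2 j.2 he)
  have := Fintype.card_le_of_injective _ hinj
  rw [Fintype.card_fin] at this
  rwa [Nat.card_eq_fintype_card]

theorem exists_longest [Finite V] {A : V → V → Prop} {S : Set V} {k : ℕ} (h : HasPath A S k) :
    ∃ n, k ≤ n ∧ HasPath A S n ∧ ∀ m, n < m → ¬ HasPath A S m := by
  classical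
  have hb : ∀ m, HasPath A S m → m ≤ Nat.card V := fun m hm => path_le_card hm
  refine ⟨Nat.findGreatest (HasPath A S) (Nat.card V), ?_, ?_, ?_⟩
  · exact Nat.le_findGreatest (hb k h) h
  · exact Nat.findGreatest_spec (hb k h) h
  · intro m hm hp
    exact absurd (Nat.le_findGreatest (hb m hp) hp) (by omega)

theorem path_rev {A : V → V → Prop} (hsym : ∀ u v, A u v → A v u) {S : Set V} {n : ℕ} {x : ℕ → V}
    (hx : PathOn A S n x) : PathOn A S n (fun i => x (n - 1 - i)) := by
  obtain ⟨h1, h2, h3⟩ := hx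
  refine ⟨fun i hi => h1 _ (by omega), ?_, ?_⟩
  · intro i hi
    have := h2 (n - 1 - (i + 1)) (by omega)
    have e : n - 1 - (i + 1) + 1 = n - 1 - i := by omega
    rw [e] at this
    exact hsym _ _ this
  · intro i j hi hj he
    have := h3 _ _ (by omega) (by omega) he
    omega

/-- A 2-connected graph in which all vertices except possibly `s` have degree at least `q + 1`
contains a theta with a path of length exactly `q + 1`. -/
theorem theta_of_deg [Finite V] {A : V → V → Prop} (hsym : ∀ u v, A u v → A v u)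
    (hirr : ∀ v, ¬ A v v) {q : ℕ} (hq : 2 ≤ q) (s : V)
    (hdeg : ∀ v, v ≠ s → q + 1 ≤ Set.ncard {w | A v w})
    (hG : K2 A Set.univ) : Theta A (q + 1) := by
  classical
  by_contra hno
  -- a neighbour of `s`
  obtain ⟨s', hs'⟩ : ∃ s', A s s' := by
    obtain ⟨⟨a, _, d, _, had⟩, hc, _⟩ := hG
    obtain ⟨w, hw⟩ : ∃ w, w ≠ s := by
      by_cases h : a = s
      · exact ⟨d, fun e => had (h.trans e.symm)⟩
      · exact ⟨a, h⟩
    rcases Relation.ReflTransGen.cases_head (hc s trivial w trivial) with h | ⟨b, hb, _⟩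
    · exact absurd h.symm hw
    · exact ⟨b, hb.1⟩
  have hss : s ≠ s' := by rintro rfl; exact hirr _ hs'
  -- a starting `B`
  have hstart : ∃ B : Set V, s ∈ B ∧ K2 A B ∧ HasPath A Bᶜ q := by
    obtain ⟨B, hB⟩ : ∃ B : Set V, B = {s, s'} := ⟨_, rfl⟩
    have hB2 : Set.ncard B ≤ 2 := by rw [hB]; exact Set.ncard_insert_le _ _ |>.trans (by simp)
    have hsB : s ∈ B := by rw [hB]; simp
    -- there is a vertex outside `B`
    have h1 : HasPath A Bᶜ 1 := by
      have h0 : 1 < Set.ncard {w | A s' w} := by have := hdeg s' (fun e => hss e.symm); omega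
      obtain ⟨w, hw, hwv⟩ := Set.exists_ne_of_one_lt_ncard h0 s
      refine ⟨fun _ => w, fun _ _ => ?_, fun i hi => by omega, fun i j hi hj _ => by omega⟩
      rw [hB]
      rintro (h | h)
      · exact hwv h
      · rw [Set.mem_singleton_iff] at h
        subst h
        exact hirr _ hw
    obtain ⟨n, hn1, ⟨x, hx⟩, hmax⟩ := exists_longest h1
    have hc := card_start hsym hirr (hmax (n + 1) (by omega)) hx
    have hd := hdeg (x 0) (fun e => hx.1 0 (by omega) (by rw [e]; exact hsB))
    have h0 : Set.ncard {w | A (x 0) w ∧ w ∈ B} ≤ Set.ncard B :=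
      Set.ncard_le_ncard (fun w hw => hw.2) (Set.toFinite _)
    have hI : Set.ncard (Idx A n x) ≤ n - 1 := by
      have hsub : Idx A n x ⊆ Set.Ico 1 n := fun i hi => ⟨hi.1, hi.2.1⟩
      have h := Set.ncard_le_ncard hsub (Set.finite_Ico 1 n)
      have e : (Set.Ico 1 n : Set ℕ) = ((Finset.Ico 1 n : Finset ℕ) : Set ℕ) := by simp
      rw [e, Set.ncard_coe_finset] at h
      simpa using h
    have hn : q ≤ n := by omega
    refine ⟨B, hsB, by rw [hB]; exact K2_pair hsym hss hs', x, fun i hi => hx.1 i (by omega),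
      fun i hi => hx.2.1 i (by omega), fun i j hi hj => hx.2.2 i j (by omega) (by omega)⟩
  -- a largest `B`
  obtain ⟨B, ⟨hsB, hB, hBp⟩, hBmax⟩ := Set.exists_max_image
    {B : Set V | s ∈ B ∧ K2 A B ∧ HasPath A Bᶜ q} Set.ncard (Set.toFinite _) hstart
  have hE : NoEar A B q := by
    intro k r a d hk hr ha hd hne har hrd hp
    have hK := hB.ear hsym ha hd hne hr har hrd
    have h1 := hBmax _ ⟨Or.inl hsB, hK, hp⟩
    have h2 : Set.ncard B < Set.ncard (B ∪ img r k) := by
      refine Set.ncard_lt_ncard ?_ (Set.toFinite _)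
      refine ⟨Set.subset_union_left, fun h => ?_⟩
      exact hr.1 0 (by omega) (h (Or.inr ⟨0, by omega, rfl⟩))
    omega
  have hdegB : ∀ v, v ∉ B → q + 1 ≤ Set.ncard {w | A v w} := fun v hv =>
    hdeg v (fun e => hv (e ▸ hsB))
  obtain ⟨n, hqn, ⟨x, hx⟩, hmax⟩ := exists_longest hBp
  rcases Nat.lt_or_ge q n with h | h
  · exact (Setup.mk hsym hirr hq hdegB hG hB hE hno h (hmax _ (by omega))).absurd hx
  · have hnq : n = q := by omega
    subst hnq
    have hmax' : ¬ HasPath A Bᶜ (n + 1) := hmax _ (by omega)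
    have two : ∀ y : ℕ → V, PathOn A Bᶜ n y → 1 < Set.ncard {w | A (y 0) w ∧ w ∈ B} := by
      intro y hy
      have hc := card_start hsym hirr hmax' hy
      have hd := hdegB (y 0) (hy.1 0 (by omega))
      have hI : Set.ncard (Idx A n y) ≤ n - 1 := by
        have hsub : Idx A n y ⊆ Set.Ico 1 n := fun i hi => ⟨hi.1, hi.2.1⟩
        have h := Set.ncard_le_ncard hsub (Set.finite_Ico 1 n)
        have e : (Set.Ico 1 n : Set ℕ) = ((Finset.Ico 1 n : Finset ℕ) : Set ℕ) := by simp
        rw [e, Set.ncard_coe_finset] at h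
        simpa using h
      omega
    have h1 := two x hx
    have h2 := two _ (path_rev hsym hx)
    rw [Nat.sub_zero] at h2
    obtain ⟨a, ha⟩ : ({w | A (x 0) w ∧ w ∈ B} : Set V).Nonempty := by
      rw [← Set.ncard_pos (Set.toFinite _)]; omega
    obtain ⟨d, hd, hda⟩ := Set.exists_ne_of_one_lt_ncard h2 a
    exact hno (theta_of_ear hsym hirr hB (by omega) hx ha.2 hd.2 (fun e => hda e.symm)
      (hsym _ _ ha.1) hd.1)

end Pool.Agent.SymMader
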