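import Pool.Agent.Hhelper50.Mader.Bfs

/-!
# Colouring all but a small set of vertices
-/

set_option autoImplicit false

namespace Pool.Agent.SymMader

open Pool.Agent.Hhelper50.Mader

variable {V : Type} {A : V → V → Prop}

/-- A colouring `g` of `Y` off `J` with one extra colour `none`, without monochromatic cycles, such
that the uncoloured set `J` is smaller than the class of `none`. -/
def Almost (A : V → V → Prop) (C : Type) (Y : Set V) : Prop :=
  ∃ (J : Set V) (g : V → Option C), J ⊆ Y ∧ Good A (Y \ J) g ∅ ∧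
    Set.ncard J < Set.ncard {v | v ∈ Y \ J ∧ g v = none}

theorem Almost.glue [Finite V] {C : Type} {Y R : Set V} (hR : ∀ x ∈ R, ∀ y ∈ Y, A x y → y ∈ R)
    (h1 : Almost A C (Y ∩ R)) (h2 : Almost A C (Y \ R)) : Almost A C Y := by
  classical
  obtain ⟨J1, g1, hJ1, hg1, hc1⟩ := h1
  obtain ⟨J2, g2, hJ2, hg2, hc2⟩ := h2
  obtain ⟨g, hg⟩ : ∃ g : V → Option C, g = fun x => if x ∈ R then g1 x else g2 x := ⟨_, rfl⟩
  have gin : ∀ x, x ∈ R → g x = g1 x := by intro x hx; simp [hg, hx]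
  have gout : ∀ x, x ∉ R → g x = g2 x := by intro x hx; simp [hg, hx]
  have hin : ∀ x, x ∈ Y \ (J1 ∪ J2) → x ∈ R → x ∈ (Y ∩ R) \ J1 := fun x hx hxR =>
    ⟨⟨hx.1, hxR⟩, fun h => hx.2 (Or.inl h)⟩
  have hout : ∀ x, x ∈ Y \ (J1 ∪ J2) → x ∉ R → x ∈ (Y \ R) \ J2 := fun x hx hxR =>
    ⟨⟨hx.1, hxR⟩, fun h => hx.2 (Or.inr h)⟩
  refine ⟨J1 ∪ J2, g, ?_, ?_, ?_⟩
  · rintro x (h | h)
    · exact (hJ1 h).1
    · exact (hJ2 h).1
  · intro x hx
    -- the cycle stays on one side
    have key1 : ∀ y, Relation.TransGen (Mono A (Y \ (J1 ∪ J2)) g ∅) x y → x ∈ R →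
        y ∈ R ∧ Relation.TransGen (Mono A ((Y ∩ R) \ J1) g1 ∅) x y := by
      intro y hy hxR
      induction hy with
      | single h =>
        obtain ⟨a1, a2, a3, a4, a5, a6⟩ := h
        have hyR := hR _ hxR _ a2.1 a5
        refine ⟨hyR, Relation.TransGen.single ⟨hin _ a1 hxR, hin _ a2 hyR, a3, a4, a5, ?_⟩⟩
        rw [gin _ hxR, gin _ hyR] at a6; exact a6
      | tail _ h ih =>
        obtain ⟨a1, a2, a3, a4, a5, a6⟩ := h
        have hyR := hR _ ih.1 _ a2.1 a5
        refine ⟨hyR, ih.2.tail ⟨hin _ a1 ih.1, hin _ a2 hyR, a3, a4, a5, ?_⟩⟩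
        rw [gin _ ih.1, gin _ hyR] at a6; exact a6
    have key2 : ∀ y, Relation.TransGen (Mono A (Y \ (J1 ∪ J2)) g ∅) y x → x ∉ R →
        y ∉ R ∧ Relation.TransGen (Mono A ((Y \ R) \ J2) g2 ∅) y x := by
      intro y hy hxR
      induction hy using Relation.TransGen.head_induction_on with
      | single h =>
        obtain ⟨a1, a2, a3, a4, a5, a6⟩ := h
        have hyR := fun h => hxR (hR _ h _ a2.1 a5)
        refine ⟨hyR, Relation.TransGen.single ⟨hout _ a1 hyR, hout _ a2 hxR, a3, a4, a5, ?_⟩⟩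
        rw [gout _ hyR, gout _ hxR] at a6; exact a6
      | head h _ ih =>
        obtain ⟨a1, a2, a3, a4, a5, a6⟩ := h
        have hyR := fun h => ih.1 (hR _ h _ a2.1 a5)
        refine ⟨hyR, Relation.TransGen.head ⟨hout _ a1 hyR, hout _ a2 ih.1, a3, a4, a5, ?_⟩ ih.2⟩
        rw [gout _ hyR, gout _ ih.1] at a6; exact a6
    by_cases hxR : x ∈ R
    · exact hg1 x (key1 x hx hxR).2
    · exact hg2 x (key2 x hx hxR).2
  · have e : {v | v ∈ (Y ∩ R) \ J1 ∧ g1 v = none} ∪ {v | v ∈ (Y \ R) \ J2 ∧ g2 v = none} ⊆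
        {v | v ∈ Y \ (J1 ∪ J2) ∧ g v = none} := by
      rintro v (⟨h, h'⟩ | ⟨h, h'⟩)
      · refine ⟨⟨h.1.1, ?_⟩, by rw [gin _ h.1.2]; exact h'⟩
        rintro (h0 | h0)
        · exact h.2 h0
        · exact (hJ2 h0).2 h.1.2
      · refine ⟨⟨h.1.1, ?_⟩, by rw [gout _ h.1.2]; exact h'⟩
        rintro (h0 | h0)
        · exact h.1.2 (hJ1 h0).2
        · exact h.2 h0
    have hd : Disjoint {v | v ∈ (Y ∩ R) \ J1 ∧ g1 v = none} {v | v ∈ (Y \ R) \ J2 ∧ g2 v = none} := by
      rw [Set.disjoint_left]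
      rintro v ⟨h, _⟩ ⟨h', _⟩
      exact h'.1.2 h.1.2
    have h3 := Set.ncard_union_eq hd (Set.toFinite _) (Set.toFinite _)
    have h4 := Set.ncard_le_ncard e (Set.toFinite _)
    have h5 := Set.ncard_union_le J1 J2
    omega

/-- The tree of the Duchet-Meyniel argument: `O` out-connected from `r`, `I` acyclic. -/
structure Tree (A : V → V → Prop) (Y : Set V) (r : V) (O I : Set V) : Prop where
  root : r ∈ O
  sub : O ⊆ Y
  subI : I ⊆ O
  card : Set.ncard O + 1 ≤ 2 * Set.ncard I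
  acyc : ∃ ρ : V → ℕ, ∀ u ∈ I, ∀ v ∈ I, A u v → ρ u < ρ v
  conn : ∀ x ∈ O, Relation.ReflTransGen (fun a b => A a b ∧ b ∈ O) r x

theorem Tree.extend [Finite V] {Y O I : Set V} {r : V} (hloop : ∀ v, ¬ A v v)
    (T : Tree A Y r O I) {o u v : V} (ho : o ∈ O) (hou : A o u) (hu : u ∉ O) (huY : u ∈ Y)
    (hv : v ∈ Y) (huv : A u v) (hvO : ∀ x ∈ O, ¬ A x v) (hvO' : v ∉ O) :
    Tree A Y r (O ∪ {u, v}) (I ∪ {v}) := by
  classical
  obtain ⟨h1, h2, h3, h4, ⟨ρ, h5⟩, h6⟩ := T
  have huv' : u ≠ v := by rintro rfl; exact hvO o ho hou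
  refine ⟨Or.inl h1, ?_, ?_, ?_, ?_, ?_⟩
  · rintro x (h | h | h)
    · exact h2 h
    · rw [h]; exact huY
    · rw [Set.mem_singleton_iff.mp h]; exact hv
  · rintro x (h | h)
    · exact Or.inl (h3 h)
    · exact Or.inr (Or.inr h)
  · have c1 : Set.ncard (O ∪ {u, v}) ≤ Set.ncard O + 2 := by
      refine (Set.ncard_union_le _ _).trans ?_
      have : Set.ncard ({u, v} : Set V) ≤ 2 := (Set.ncard_insert_le _ _).trans (by simp)
      omega
    have c2 : Set.ncard (I ∪ {v}) = Set.ncard I + 1 := by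
      have hd : Disjoint I {v} := by
        rw [Set.disjoint_left]
        intro x hx hx'
        rw [Set.mem_singleton_iff] at hx'
        subst hx'
        exact hvO' (h3 hx)
      rw [Set.ncard_union_eq hd (Set.toFinite _) (Set.toFinite _), Set.ncard_singleton]
    omega
  · refine ⟨fun x => if x = v then 0 else ρ x + 1, ?_⟩
    rintro x (hx | hx) y (hy | hy) hxy
    · have e1 : x ≠ v := fun e => hvO' (e ▸ h3 hx)
      have e2 : y ≠ v := fun e => hvO' (e ▸ h3 hy)
      simp only [e1, e2, if_false]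
      have := h5 x hx y hy hxy
      omega
    · rw [Set.mem_singleton_iff] at hy
      subst hy
      exact absurd hxy (hvO x (h3 hx))
    · rw [Set.mem_singleton_iff] at hx
      subst hx
      have e2 : y ≠ x := fun e => hvO' (e ▸ h3 hy)
      simp only [e2, if_true, if_false]
      omega
    · rw [Set.mem_singleton_iff] at hx hy
      subst hx; subst hy
      exact absurd hxy (hloop _)
  · have hmono : ∀ x, Relation.ReflTransGen (fun a b => A a b ∧ b ∈ O) r x →
        Relation.ReflTransGen (fun a b => A a b ∧ b ∈ O ∪ {u, v}) r x := by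
      intro x hx
      induction hx with
      | refl => exact Relation.ReflTransGen.refl
      | tail _ h ih => exact ih.tail ⟨h.1, Or.inl h.2⟩
    have hru : Relation.ReflTransGen (fun a b => A a b ∧ b ∈ O ∪ {u, v}) r u :=
      (hmono o (h6 o ho)).tail ⟨hou, Or.inr (Or.inl rfl)⟩
    rintro x (h | h | h)
    · exact hmono x (h6 x h)
    · rw [h]; exact hru
    · rw [Set.mem_singleton_iff.mp h]
      exact hru.tail ⟨huv, Or.inr (Or.inr rfl)⟩

theorem reach_of_gen {S : Set V} {x y : V} (hne : x ≠ y)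
    (h : Relation.ReflTransGen (fun a b => A a b ∧ b ∈ S) x y) : Reach A S x y := by
  induction h with
  | refl => exact absurd rfl hne
  | @tail b c hb hbc ih =>
    by_cases e : x = b
    · subst e; exact Reach.arc hbc.1
    · have h1 := ih e
      refine h1.trans ?_ (Reach.arc hbc.1)
      rcases Relation.ReflTransGen.cases_tail hb with h | ⟨w, _, hw⟩
      · exact absurd h.symm e
      · exact hw.2

/-- The last vertex of `X` on a walk out of `X`. -/
theorem exists_exit {X : Set V} {x r : V} (hx : x ∈ X) (hr : r ∉ X)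
    (h : Relation.ReflTransGen A x r) : ∃ h ∈ X, Reach A Xᶜ h r := by
  have hne : ∀ z, z ∈ X → z ≠ r := fun z hz e => hr (e ▸ hz)
  have key : ∀ z, Relation.ReflTransGen A z r → (∃ h ∈ X, Reach A Xᶜ h r) ∨
      Relation.ReflTransGen (fun a b => A a b ∧ b ∈ Xᶜ) z r := by
    intro z hz
    induction hz using Relation.ReflTransGen.head_induction_on with
    | refl => exact Or.inr Relation.ReflTransGen.refl
    | @head z1 z2 h1 _ ih =>
      rcases ih with h3 | h3
      · exact Or.inl h3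
      · by_cases hz2 : z2 ∈ X
        · exact Or.inl ⟨z2, hz2, reach_of_gen (hne z2 hz2) h3⟩
        · exact Or.inr (Relation.ReflTransGen.head ⟨h1, hz2⟩ h3)
  rcases key x h with h1 | h1
  · exact h1
  · exact ⟨x, hx, reach_of_gen (hne x hx) h1⟩

/-- The complement of an out-connected dominating set is colourable. -/
theorem col_of_dominated [Finite V] {q : ℕ} (hq : 1 ≤ q) (hloop : ∀ v, ¬ A v v)
    (hN : ¬ HasNeck A (q + 2)) {O X : Set V} {r : V} (hr : r ∈ O) (hOX : ∀ x ∈ X, x ∉ O)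
    (hconn : ∀ x ∈ O, Relation.ReflTransGen (fun a b => A a b ∧ b ∈ O) r x)
    (hdom : ∀ x ∈ X, ∃ o ∈ O, A o x) (hback : ∀ x ∈ X, Relation.ReflTransGen A x r) :
    Col A X (ZMod (q + 1)) := by
  classical
  by_contra hcol
  obtain ⟨Z, hZX, hZ, hZmin⟩ := exists_critical hcol
  obtain ⟨x, hx⟩ : Z.Nonempty := by
    by_contra hcon
    rw [Set.not_nonempty_iff_eq_empty] at hcon
    subst hcon
    exact hZ Col.empty
  have hrZ : r ∉ Z := fun h => hOX r (hZX h) hr
  obtain ⟨h, hhZ, hh⟩ := exists_exit hx hrZ (hback x (hZX hx))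
  refine hN (main_lemma hhZ hq hloop ?_ hZ
    (hZmin _ ⟨fun y hy => hy.1, fun hsub => (hsub hhZ).2 rfl⟩))
  intro y hy _
  obtain ⟨o, ho, hoy⟩ := hdom y (hZX hy)
  refine hh.trans hrZ ?_
  by_cases e : r = o
  · subst e; exact Reach.arc hoy
  · have h1 : Reach A Zᶜ r o := (reach_of_gen e (hconn o ho)).mono
      (fun z hz hzZ => hOX z (hZX hzZ) hz)
    exact h1.trans (fun hoZ => hOX o (hZX hoZ) ho) (Reach.arc hoy)

theorem almost_strong [Finite V] {q : ℕ} (hq : 1 ≤ q) (hloop : ∀ v, ¬ A v v)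
    (hN : ¬ HasNeck A (q + 2)) {Y : Set V} {r : V} (hr : r ∈ Y)
    (hstrong : ∀ x ∈ Y, ∀ y ∈ Y, Relation.ReflTransGen (fun a b => A a b ∧ b ∈ Y) x y) :
    Almost A (ZMod (q + 1)) Y := by
  classical
  -- a largest tree
  have h0 : Tree A Y r {r} {r} := by
    refine ⟨rfl, ?_, le_rfl, by simp, ⟨fun _ => 0, ?_⟩, ?_⟩
    · intro x hx; rw [Set.mem_singleton_iff.mp hx]; exact hr
    · intro u hu v hv huv
      rw [Set.mem_singleton_iff] at hu hv
      subst hu; subst hv
      exact absurd huv (hloop _)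
    · intro x hx; rw [Set.mem_singleton_iff.mp hx]
  obtain ⟨⟨O, I⟩, hT, hmax⟩ := Set.exists_max_image {p : Set V × Set V | Tree A Y r p.1 p.2}
    (fun p => Set.ncard p.1) (Set.toFinite _) ⟨({r}, {r}), h0⟩
  simp only [Set.mem_setOf_eq] at hT
  have hdom : ∀ y ∈ Y, y ∉ O → ∃ o ∈ O, A o y := by
    by_contra hcon
    push Not at hcon
    obtain ⟨y, hyY, hyO, hy⟩ := hcon
    -- leave the closed out-neighbourhood of `O`
    obtain ⟨u, v, huY, hvY, hu, hv, huv⟩ : ∃ u v, u ∈ Y ∧ v ∈ Y ∧ (u ∈ O ∨ ∃ o ∈ O, A o u) ∧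
        (v ∉ O ∧ ∀ o ∈ O, ¬ A o v) ∧ A u v := by
      have key : ∀ z, Relation.ReflTransGen (fun a b => A a b ∧ b ∈ Y) r z → z ∉ O →
          (∀ o ∈ O, ¬ A o z) → ∃ u v, u ∈ Y ∧ v ∈ Y ∧ (u ∈ O ∨ ∃ o ∈ O, A o u) ∧
          (v ∉ O ∧ ∀ o ∈ O, ¬ A o v) ∧ A u v := by
        intro z hz
        induction hz with
        | refl => intro h; exact absurd hT.root h
        | @tail b c hb hbc ih =>
          intro h1 h2
          have hbY : b ∈ Y := by
            rcases Relation.ReflTransGen.cases_tail hb with h | ⟨w, _, hw⟩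
            · rw [h]; exact hr
            · exact hw.2
          by_cases hbO : b ∈ O
          · exact ⟨b, c, hbY, hbc.2, Or.inl hbO, ⟨h1, h2⟩, hbc.1⟩
          · by_cases hbd : ∃ o ∈ O, A o b
            · exact ⟨b, c, hbY, hbc.2, Or.inr hbd, ⟨h1, h2⟩, hbc.1⟩
            · push Not at hbd
              exact ih hbO hbd
      exact key y (hstrong r hr y hyY) hyO hy
    have huO : u ∉ O := fun h => hv.2 u h huv
    obtain ⟨o, ho, hou⟩ := hu.resolve_left huO
    have hT' := hT.extend hloop ho hou huO huY hvY huv hv.2 hv.1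
    have h1 := hmax (O ∪ {u, v}, I ∪ {v}) hT'
    simp only at h1
    have h2 : Set.ncard O < Set.ncard (O ∪ {u, v}) := by
      refine Set.ncard_lt_ncard ⟨Set.subset_union_left, fun h => ?_⟩ (Set.toFinite _)
      exact huO (h (Or.inr (Or.inl rfl)))
    omega
  obtain ⟨f, hf⟩ : Col A (Y \ O) (ZMod (q + 1)) := by
    refine col_of_dominated hq hloop hN hT.root (fun x hx => hx.2) hT.conn
      (fun x hx => hdom x hx.1 hx.2) (fun x hx => ?_)
    exact Relation.ReflTransGen.mono (fun a b h => h.1) _ _ (hstrong x hx.1 r hr)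
  obtain ⟨_, hOY, hIO, hcard, ⟨ρ, hρ⟩, _⟩ := hT
  obtain ⟨g, hg⟩ : ∃ g : V → Option (ZMod (q + 1)), g = fun v => if v ∈ I then none else some (f v) :=
    ⟨_, rfl⟩
  have gI : ∀ v, v ∈ I → g v = none := by intro v hv; simp [hg, hv]
  have gX : ∀ v, v ∉ I → g v = some (f v) := by intro v hv; simp [hg, hv]
  have hcase : ∀ v, v ∈ Y \ (O \ I) → v ∉ I → v ∈ Y \ O := fun v hv hvI =>
    ⟨hv.1, fun hO => hv.2 ⟨hO, hvI⟩⟩
  refine ⟨O \ I, g, fun x hx => hOY hx.1, ?_, ?_⟩
  · intro x hx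
    by_cases hxI : x ∈ I
    · have key : ∀ y, Relation.TransGen (Mono A (Y \ (O \ I)) g ∅) x y → y ∈ I ∧ ρ x < ρ y := by
        intro y hy
        induction hy with
        | @single b h =>
          obtain ⟨_, _, _, _, a5, a6⟩ := h
          have hb : b ∈ I := by
            by_contra hb
            rw [gI x hxI, gX b hb] at a6
            simp at a6
          exact ⟨hb, hρ x hxI b hb a5⟩
        | @tail b c _ h ih =>
          obtain ⟨_, _, _, _, a5, a6⟩ := h
          have hc : c ∈ I := by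
            by_contra hc
            rw [gI b ih.1, gX c hc] at a6
            simp at a6
          exact ⟨hc, ih.2.trans (hρ b ih.1 c hc a5)⟩
      exact absurd (key x hx).2 (lt_irrefl _)
    · have key : ∀ y, Relation.TransGen (Mono A (Y \ (O \ I)) g ∅) x y →
          y ∉ I ∧ Relation.TransGen (Mono A (Y \ O) f ∅) x y := by
        intro y hy
        induction hy with
        | @single b h =>
          obtain ⟨a1, a2, a3, a4, a5, a6⟩ := h
          have hb : b ∉ I := by
            intro hb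
            rw [gI b hb, gX x hxI] at a6
            simp at a6
          rw [gX x hxI, gX b hb] at a6
          exact ⟨hb, Relation.TransGen.single ⟨hcase _ a1 hxI, hcase _ a2 hb, a3, a4, a5,
            Option.some.inj a6⟩⟩
        | @tail b c _ h ih =>
          obtain ⟨a1, a2, a3, a4, a5, a6⟩ := h
          have hc : c ∉ I := by
            intro hc
            rw [gI c hc, gX b ih.1] at a6
            simp at a6
          rw [gX b ih.1, gX c hc] at a6
          exact ⟨hc, ih.2.tail ⟨hcase _ a1 ih.1, hcase _ a2 hc, a3, a4, a5, Option.some.inj a6⟩⟩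
      exact hf x (key x hx).2
  · have h1 : Set.ncard (O \ I) + Set.ncard I = Set.ncard O :=
      Set.ncard_sdiff_add_ncard_of_subset hIO (Set.toFinite _)
    have h2 : I ⊆ {v | v ∈ Y \ (O \ I) ∧ g v = none} := fun v hv =>
      ⟨⟨hOY (hIO hv), fun h => h.2 hv⟩, gI v hv⟩
    have h3 := Set.ncard_le_ncard h2 (Set.toFinite _)
    omega

theorem almost [Finite V] {q : ℕ} (hq : 1 ≤ q) (hloop : ∀ v, ¬ A v v)
    (hN : ¬ HasNeck A (q + 2)) (n : ℕ) : ∀ Y : Set V, Y.Nonempty → Set.ncard Y = n →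
    Almost A (ZMod (q + 1)) Y := by
  classical
  induction n using Nat.strong_induction_on with
  | _ n ih =>
    intro Y hYne hn
    by_cases hs : ∀ x ∈ Y, ∀ y ∈ Y, Relation.ReflTransGen (fun a b => A a b ∧ b ∈ Y) x y
    · obtain ⟨r, hr⟩ := hYne
      exact almost_strong hq hloop hN hr hs
    · push Not at hs
      obtain ⟨x, hx, y, hy, hxy⟩ := hs
      obtain ⟨R, hR⟩ : ∃ R : Set V, R =
        {z | Relation.ReflTransGen (fun a b => A a b ∧ b ∈ Y) x z} := ⟨_, rfl⟩
      have hxR : x ∈ R := by rw [hR]; exact Relation.ReflTransGen.refl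
      have hyR : y ∉ R := by rw [hR]; exact hxy
      refine Almost.glue (R := R) ?_ (ih _ ?_ _ ⟨x, hx, hxR⟩ rfl) (ih _ ?_ _ ⟨y, hy, hyR⟩ rfl)
      · intro a ha b hb hab
        rw [hR] at ha ⊢
        exact Relation.ReflTransGen.tail ha ⟨hab, hb⟩
      · rw [← hn]
        exact Set.ncard_lt_ncard ⟨Set.inter_subset_left, fun h => hyR (h hy).2⟩ (Set.toFinite _)
      · rw [← hn]
        exact Set.ncard_lt_ncard ⟨fun z hz => hz.1, fun h => (h hx).2 hxR⟩ (Set.toFinite _)

end Pool.Agent.SymMader
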