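import Pool.Agent.SymMader.Arc

/-!
# There is no cycle with `2 q + 1` or more vertices outside `B`
-/

set_option autoImplicit false

namespace Pool.Agent.SymMader

open Pool.Agent.Hhelper50.Mader

variable {V : Type}

/-- A closed ear of `B`: a path `W 0, ..., W κ` with ends in `B` and inner vertices outside. -/
def EarPath (A : V → V → Prop) (B : Set V) (κ : ℕ) (W : ℕ → V) : Prop :=
  2 ≤ κ ∧ (∀ i, i < κ → A (W i) (W (i + 1))) ∧
    (∀ i j, i ≤ κ → j ≤ κ → W i = W j → i = j) ∧ W 0 ∈ B ∧ W κ ∈ B ∧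
    ∀ i, 0 < i → i < κ → W i ∉ B

theorem EarPath.rev {A : V → V → Prop} (hsym : ∀ u v, A u v → A v u) {B : Set V} {κ : ℕ}
    {W : ℕ → V} (h : EarPath A B κ W) : EarPath A B κ (fun j => W (κ - j)) := by
  obtain ⟨h1, h2, h3, h4, h5, h6⟩ := h
  refine ⟨h1, ?_, ?_, by simpa using h5, by simpa using h4, ?_⟩
  · intro i hi
    have := h2 (κ - (i + 1)) (by omega)
    have e : κ - (i + 1) + 1 = κ - i := by omega
    rw [e] at this
    exact hsym _ _ this
  · intro i j hi hj he
    have := h3 _ _ (by omega) (by omega) he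
    omega
  · intro i h0 hi
    exact h6 _ (by omega) (by omega)

theorem exists_ear {A : V → V → Prop} (hsym : ∀ u v, A u v → A v u) (hG : K2 A Set.univ)
    {B : Set V} (hB : K2 A B) {v₀ : V} (hv₀ : v₀ ∉ B) : ∃ κ W, EarPath A B κ W := by
  classical
  obtain ⟨⟨b₁, hb₁, b₂, hb₂, hb⟩, _, _⟩ := hB
  obtain ⟨_, hconn, hcut⟩ := hG
  obtain ⟨m, t, ⟨_, hta, hti⟩, ht0, htm, htB⟩ := exists_path_to (Z := B) (Set.mem_univ v₀) hb₁
    (hconn v₀ (Set.mem_univ _) b₁ (Set.mem_univ _))
  have hm : 1 ≤ m := by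
    rcases Nat.eq_zero_or_pos m with h | h
    · subst h; rw [ht0] at htm; exact absurd htm hv₀
    · exact h
  set a := t m with ha
  have hau : A a (t (m - 1)) := by
    have := hta (m - 1) (by omega)
    rw [Nat.sub_add_cancel hm] at this
    exact hsym _ _ this
  have huB : t (m - 1) ∉ B := htB _ (by omega)
  obtain ⟨d₀, hd₀, hd₀a⟩ : ∃ d₀ ∈ B, d₀ ≠ a := by
    by_cases h : b₁ = a
    · exact ⟨b₂, hb₂, fun e => hb (h.trans e.symm)⟩
    · exact ⟨b₁, hb₁, h⟩
  have huS : t (m - 1) ∈ Set.univ \ {a} := ⟨Set.mem_univ _, fun e => huB (e ▸ htm)⟩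
  have hdS : d₀ ∈ Set.univ \ {a} := ⟨Set.mem_univ _, hd₀a⟩
  obtain ⟨m', t', ⟨htS', hta', hti'⟩, ht0', htm', htB'⟩ := exists_path_to (Z := B) huS hd₀
    (hcut a (Set.mem_univ _) _ huS _ hdS)
  have hm' : 1 ≤ m' := by
    rcases Nat.eq_zero_or_pos m' with h | h
    · subst h; rw [ht0'] at htm'; exact absurd htm' huB
    · exact h
  refine ⟨m' + 1, fun j => if j = 0 then a else t' (j - 1), by omega, ?_, ?_, ?_, ?_, ?_⟩
  · intro i hi
    rcases Nat.eq_zero_or_pos i with h | h
    · subst h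
      simp only [if_true]
      simpa [ht0'] using hau
    · have h1 : i ≠ 0 := by omega
      have h2 : i + 1 ≠ 0 := by omega
      simp only [h1, h2, if_false]
      have := hta' (i - 1) (by omega)
      have e : i - 1 + 1 = i + 1 - 1 := by omega
      rwa [e] at this
  · intro i j hi hj he
    rcases Nat.eq_zero_or_pos i with h | h
    · rcases Nat.eq_zero_or_pos j with h' | h'
      · omega
      · have h2 : j ≠ 0 := by omega
        simp only [h, h2, if_true, if_false] at he
        exact absurd he.symm (htS' (j - 1) (by omega)).2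
    · rcases Nat.eq_zero_or_pos j with h' | h'
      · have h2 : i ≠ 0 := by omega
        simp only [h', h2, if_true, if_false] at he
        exact absurd he (htS' (i - 1) (by omega)).2
      · have h1 : i ≠ 0 := by omega
        have h2 : j ≠ 0 := by omega
        simp only [h1, h2, if_false] at he
        have := hti' _ _ (by omega) (by omega) he
        omega
  · simpa using htm
  · simpa using htm'
  · intro i h0 hi
    have h1 : i ≠ 0 := by omega
    simp only [h1, if_false]
    exact htB' _ (by omega)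

/-- The cycle data. -/
structure Cyc (A : V → V → Prop) (B : Set V) (n : ℕ) (c : ℕ → V) : Prop where
  pos : 0 < n
  adj : ∀ s, A (c s) (c (s + 1))
  out : ∀ s, c s ∉ B
  inj : ∀ s t, c s = c t → s % n = t % n
  per : ∀ s, c (s + n) = c s

theorem Cyc.lt {A : V → V → Prop} {B : Set V} {n : ℕ} {c : ℕ → V} (h : Cyc A B n c) (s : ℕ) :
    ∃ u, u < n ∧ c s = c u := by
  induction s using Nat.strong_induction_on with
  | _ s ih =>
    rcases Nat.lt_or_ge s n with h1 | h1
    · exact ⟨s, h1, rfl⟩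
    · obtain ⟨u, hu, he⟩ := ih (s - n) (by have := h.pos; omega)
      refine ⟨u, hu, ?_⟩
      rw [← he, ← h.per (s - n)]
      congr 1; omega

theorem reroute {A : V → V → Prop} (hsym : ∀ u v, A u v → A v u) {B : Set V} {q : ℕ}
    (hE : NoEar A B q) {n : ℕ} (hn : 2 * q + 1 ≤ n) {c : ℕ → V} (hc : Cyc A B n c)
    {κ : ℕ} {W : ℕ → V} (hW : EarPath A B κ W) {s : ℕ} (hs0 : 0 < s) (hsκ : s < κ)
    (hs : ∃ u, W s = c u) (honly : ∀ j, j ≤ κ → j ≠ s → ∀ u, W j ≠ c u)
    {μ : ℕ} {T : ℕ → V} (hμ : 1 ≤ μ) (hTa : ∀ i, i < μ → A (T i) (T (i + 1)))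
    (hTi : ∀ i j, i ≤ μ → j ≤ μ → T i = T j → i = j) (hT0 : ∃ v, T 0 = c v)
    (hTC : ∀ i, 0 < i → i ≤ μ → ∀ u, T i ≠ c u) (hTB : ∀ i, i < μ → T i ∉ B)
    (hTW : ∀ i, i < μ → ∀ j, j ≤ κ → T i ≠ W j) {i : ℕ} (hi : s < i) (hiκ : i ≤ κ)
    (hTμ : T μ = W i) : False := by
  obtain ⟨hκ, hWa, hWi, hW0, hWκ, hWB⟩ := hW
  obtain ⟨u, hu⟩ := hs
  obtain ⟨u₀, hu₀, hu₀'⟩ := hc.lt u
  obtain ⟨v, hv⟩ := hT0
  obtain ⟨v₀, hv₀, hv₀'⟩ := hc.lt v
  obtain ⟨F, hF⟩ : ∃ F : ℕ → V, F = fun j => if j ≤ μ then T j else W (i + (j - μ)) := ⟨_, rfl⟩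
  have g1 : ∀ j, j ≤ μ → F j = T j := by
    intro j hj; simp only [hF, hj, if_true]
  have g2 : ∀ j, μ ≤ j → F j = W (i + (j - μ)) := by
    intro j hj
    by_cases e : j ≤ μ
    · have e' : j = μ := by omega
      simp only [hF, e, if_true]
      rw [e', hTμ]; congr 1; omega
    · simp only [hF, e, if_false]
  refine cyc_links hsym hE hn hc.pos hc.adj hc.out hc.inj hc.per (W₁ := W) (α := s)
    (W₂ := F) (γ := μ + (κ - i)) hs0 (by omega)
    (fun j hj => hWa j (by omega)) (fun j k hj hk => hWi j k (by omega) (by omega)) hW0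
    (fun j h0 hj => hWB j h0 (by omega)) (fun j hj => honly j (by omega) (by omega))
    ?_ ?_ ?_ ?_ ?_ ?_ hu₀ hv₀ (hu.trans hu₀') ?_
  · intro j hj
    rcases Nat.lt_or_ge j μ with h | h
    · rw [g1 j (by omega), g1 (j + 1) (by omega)]; exact hTa j h
    · rw [g2 j h, g2 (j + 1) (by omega)]
      have e : i + (j + 1 - μ) = i + (j - μ) + 1 := by omega
      rw [e]; exact hWa _ (by omega)
  · have key : ∀ j k, j < k → k ≤ μ + (κ - i) → F j = F k → False := by
      intro j k hjk hk he
      rcases Nat.lt_or_ge j μ with h | h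
      · rw [g1 j (by omega)] at he
        rcases Nat.lt_or_ge μ k with h' | h'
        · rw [g2 k (by omega)] at he
          exact hTW j h _ (by omega) he
        · rw [g1 k h'] at he
          have := hTi _ _ (by omega) h' he
          omega
      · rw [g2 j h, g2 k (by omega)] at he
        have := hWi _ _ (by omega) (by omega) he
        omega
    intro j k hj hk he
    rcases lt_trichotomy j k with h | h | h
    · exact (key j k h hk he).elim
    · exact h
    · exact (key k j h hj he.symm).elim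
  · rw [g2 _ (by omega)]
    have e : i + (μ + (κ - i) - μ) = κ := by omega
    rw [e]; exact hWκ
  · intro j hj
    rcases Nat.lt_or_ge j μ with h | h
    · rw [g1 j (by omega)]; exact hTB j h
    · rw [g2 j h]; exact hWB _ (by omega) (by omega)
  · intro j h0 hj u'
    rcases Nat.lt_or_ge μ j with h | h
    · rw [g2 j (by omega)]; exact honly _ (by omega) (by omega) u'
    · rw [g1 j h]; exact hTC j h0 h u'
  · intro j k hj hk he
    rcases Nat.lt_or_ge k μ with h | h
    · rw [g1 k (by omega)] at he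
      exact hTW k h j (by omega) he.symm
    · rw [g2 k h] at he
      have := hWi _ _ (by omega) (by omega) he
      omega
  · rw [g1 0 (by omega)]; exact hv.trans hv₀'

theorem no_long_cycle {A : V → V → Prop} (hsym : ∀ u v, A u v → A v u) {B : Set V} {q : ℕ}
    (hq : 1 ≤ q) (hG : K2 A Set.univ) (hB : K2 A B) (hE : NoEar A B q) {n : ℕ}
    (hn : 2 * q + 1 ≤ n) {c : ℕ → V} (hc : Cyc A B n c) : False := by
  classical
  obtain ⟨κ, W, hW⟩ := exists_ear hsym hG hB (hc.out 0)
  obtain ⟨hκ, hWa, hWi, hW0, hWκ, hWB⟩ := id hW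
  have hcpath : PathOn A Bᶜ q c := by
    refine ⟨fun i _ => hc.out i, fun i _ => hc.adj i, ?_⟩
    intro i j hi hj he
    have := hc.inj i j he
    rwa [Nat.mod_eq_of_lt (by omega), Nat.mod_eq_of_lt (by omega)] at this
  have hmeet : ∃ j, 0 < j ∧ j < κ ∧ ∃ u, W j = c u := by
    by_contra hcon
    push Not at hcon
    exact noEar_path hE hκ hWa hWi hW0 hWκ hWB hcpath
      (fun i hi j h0 hj e => hcon j h0 hj i e.symm)
  have hbd : ∀ j, j ≤ κ → (∃ u, W j = c u) → 0 < j ∧ j < κ := by
    rintro j hj ⟨u, hu⟩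
    constructor
    · rcases Nat.eq_zero_or_pos j with h | h
      · subst h; exact absurd (hu ▸ hW0) (hc.out u)
      · exact h
    · rcases Nat.lt_or_ge j κ with h | h
      · exact h
      · have e : j = κ := by omega
        subst e; exact absurd (hu ▸ hWκ) (hc.out u)
  -- the first vertex of the ear on the cycle
  have hex : ∃ j, j ≤ κ ∧ ∃ u, W j = c u := by
    obtain ⟨j, _, h2, h3⟩ := hmeet; exact ⟨j, by omega, h3⟩
  obtain ⟨hsκ, hsc⟩ := Nat.find_spec hex
  set s := Nat.find hex with hs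
  have hsmin : ∀ j, j < s → ∀ u, W j ≠ c u := by
    intro j hj u hu
    exact Nat.find_min hex hj ⟨by omega, u, hu⟩
  obtain ⟨hs0, hsκ'⟩ := hbd s hsκ hsc
  by_cases hother : ∃ e, s < e ∧ e ≤ κ ∧ ∃ u, W e = c u
  · -- take the last one
    have hlast : ∃ e, (s < e ∧ e ≤ κ ∧ ∃ u, W e = c u) ∧ ∀ j, e < j → j ≤ κ → ∀ u, W j ≠ c u := by
      have hex2 : ∃ e', e' ≤ κ ∧ (s < κ - e' ∧ ∃ u, W (κ - e') = c u) := by
        obtain ⟨e, h1, h2, h3⟩ := hother
        refine ⟨κ - e, by omega, ?_⟩
        have : κ - (κ - e) = e := by omega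
        rw [this]; exact ⟨h1, h3⟩
      obtain ⟨h1, h2, h3⟩ := Nat.find_spec hex2
      refine ⟨κ - Nat.find hex2, ⟨h2, by omega, h3⟩, ?_⟩
      intro j hj hjκ u hu
      refine Nat.find_min hex2 (m := κ - j) (by omega) ⟨by omega, ?_⟩
      have : κ - (κ - j) = j := by omega
      rw [this]; exact ⟨by omega, u, hu⟩
    obtain ⟨e, ⟨he1, he2, he3⟩, hemax⟩ := hlast
    obtain ⟨_, heκ⟩ := hbd e he2 he3
    obtain ⟨u, hu⟩ := hsc
    obtain ⟨u₀, hu₀, hu₀'⟩ := hc.lt u
    obtain ⟨v, hv⟩ := he3
    obtain ⟨v₀, hv₀, hv₀'⟩ := hc.lt v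
    refine cyc_links hsym hE hn hc.pos hc.adj hc.out hc.inj hc.per (W₁ := W) (α := s)
      (W₂ := fun j => W (e + j)) (γ := κ - e) hs0 (by omega)
      (fun j hj => hWa j (by omega)) (fun j k hj hk => hWi j k (by omega) (by omega)) hW0
      (fun j h0 hj => hWB j h0 (by omega)) hsmin
      (fun j hj => hWa (e + j) (by omega)) ?_ ?_ ?_ ?_ ?_ hu₀ hv₀ (hu.trans hu₀')
      (by simpa using hv.trans hv₀')
    · intro j k hj hk hjk
      have := hWi _ _ (by omega) (by omega) hjk
      omega
    · have : e + (κ - e) = κ := by omega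
      simp only [this]; exact hWκ
    · intro j hj; exact hWB _ (by omega) (by omega)
    · intro j h0 hj u'; exact hemax _ (by omega) (by omega) u'
    · intro j k hj hk hjk
      have := hWi _ _ (by omega) (by omega) hjk
      omega
  · -- the ear meets the cycle only in `W s`
    push Not at hother
    have honly : ∀ j, j ≤ κ → j ≠ s → ∀ u, W j ≠ c u := by
      intro j hj hjs u
      rcases lt_trichotomy j s with h | h | h
      · exact hsmin j h u
      · exact absurd h hjs
      · exact hother j h hj u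
    obtain ⟨_, _, hcut⟩ := hG
    -- another vertex of the cycle
    obtain ⟨u₁, hu₁⟩ : ∃ u₁, c u₁ ≠ W s := by
      by_contra hcon
      push Not at hcon
      have := hc.inj 0 1 ((hcon 0).trans (hcon 1).symm)
      rw [Nat.mod_eq_of_lt (by omega), Nat.mod_eq_of_lt (by omega)] at this
      omega
    have h1S : c u₁ ∈ Set.univ \ {W s} := ⟨Set.mem_univ _, hu₁⟩
    have h2S : W 0 ∈ Set.univ \ {W s} := ⟨Set.mem_univ _, fun e => by
      have := hWi 0 s (by omega) hsκ e; omega⟩
    obtain ⟨m, t, ⟨htS, hta, hti⟩, ht0, htm, htZ⟩ := exists_path_to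
      (Z := {x | x ∈ B ∨ ∃ j, j ≤ κ ∧ x = W j}) h1S (Or.inl hW0)
      (hcut (W s) (Set.mem_univ _) _ h1S _ h2S)
    -- the last vertex of `t` on the cycle
    have htmC : ∀ u, t m ≠ c u := by
      intro u hu
      rcases htm with h | ⟨j, hj, h⟩
      · exact hc.out u (hu ▸ h)
      · by_cases hjs : j = s
        · subst hjs; exact (htS m (by omega)).2 h
        · exact honly j hj hjs u (h.symm.trans hu)
    obtain ⟨j₀, hj₀m, ⟨v, hv⟩, hj₀⟩ : ∃ j₀, j₀ < m ∧ (∃ u, t j₀ = c u) ∧
        ∀ j, j₀ < j → j ≤ m → ∀ u, t j ≠ c u := by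
      have hex2 : ∃ e', e' ≤ m ∧ ∃ u, t (m - e') = c u := by
        refine ⟨m, le_rfl, u₁, ?_⟩
        rw [Nat.sub_self, ht0]
      obtain ⟨h1, h3⟩ := Nat.find_spec hex2
      have hpos : Nat.find hex2 ≠ 0 := by
        intro h0
        rw [h0] at h3
        obtain ⟨u, hu⟩ := h3
        exact htmC u (by simpa using hu)
      refine ⟨m - Nat.find hex2, by omega, h3, ?_⟩
      intro j hj hjm u hu
      refine Nat.find_min hex2 (m := m - j) (by omega) ⟨by omega, u, ?_⟩
      have : m - (m - j) = j := by omega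
      rw [this]; exact hu
    have hTa : ∀ i, i < m - j₀ → A ((fun j => t (j₀ + j)) i) ((fun j => t (j₀ + j)) (i + 1)) :=
      fun i hi => hta (j₀ + i) (by omega)
    have hTi : ∀ i j, i ≤ m - j₀ → j ≤ m - j₀ → (fun j => t (j₀ + j)) i = (fun j => t (j₀ + j)) j →
        i = j := by
      intro i j hi hj he
      have := hti _ _ (by omega) (by omega) he
      omega
    have hT0 : ∃ v, (fun j => t (j₀ + j)) 0 = c v := ⟨v, by simpa using hv⟩
    have hTC : ∀ i, 0 < i → i ≤ m - j₀ → ∀ u, (fun j => t (j₀ + j)) i ≠ c u :=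
      fun i h0 hi u => hj₀ _ (by omega) (by omega) u
    have hTB : ∀ i, i < m - j₀ → (fun j => t (j₀ + j)) i ∉ B :=
      fun i hi h => htZ _ (by omega) (Or.inl h)
    have hTW : ∀ i, i < m - j₀ → ∀ j, j ≤ κ → (fun j => t (j₀ + j)) i ≠ W j :=
      fun i hi j hj h => htZ _ (by omega) (Or.inr ⟨j, hj, h⟩)
    have hend : (fun j => t (j₀ + j)) (m - j₀) = t m := by
      have : j₀ + (m - j₀) = m := by omega
      simp only [this]
    by_cases hWm : ∃ i, i ≤ κ ∧ t m = W i
    · obtain ⟨i, hi, hti'⟩ := hWm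
      have his : i ≠ s := by
        rintro rfl; exact (htS m (by omega)).2 hti'
      rcases lt_or_gt_of_ne his with h | h
      · -- reverse the ear
        have hrev := hW.rev hsym
        refine reroute hsym hE hn hc hrev (s := κ - s) (by omega) (by omega) ?_ ?_
          (μ := m - j₀) (T := fun j => t (j₀ + j)) (by omega) hTa hTi hT0 hTC hTB ?_
          (i := κ - i) (by omega) (by omega) ?_
        · have : κ - (κ - s) = s := by omega
          simp only [this]; exact hsc
        · intro j hj hjs u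
          exact honly _ (by omega) (by omega) u
        · intro i' hi' j hj
          exact hTW i' hi' _ (by omega)
        · have : κ - (κ - i) = i := by omega
          simp only [this]
          exact hend.trans hti'
      · exact reroute hsym hE hn hc hW hs0 hsκ' hsc honly (μ := m - j₀)
          (T := fun j => t (j₀ + j)) (by omega) hTa hTi hT0 hTC hTB hTW h hi (hend.trans hti')
    · push Not at hWm
      have htmB : t m ∈ B := by
        rcases htm with h | ⟨j, hj, h⟩
        · exact h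
        · exact absurd h (hWm j hj)
      obtain ⟨u, hu⟩ := hsc
      obtain ⟨u₀, hu₀, hu₀'⟩ := hc.lt u
      obtain ⟨v₀, hv₀, hv₀'⟩ := hc.lt v
      refine cyc_links hsym hE hn hc.pos hc.adj hc.out hc.inj hc.per (W₁ := W) (α := s)
        (W₂ := fun j => t (j₀ + j)) (γ := m - j₀) hs0 (by omega)
        (fun j hj => hWa j (by omega)) (fun j k hj hk => hWi j k (by omega) (by omega)) hW0
        (fun j h0 hj => hWB j h0 (by omega)) hsmin hTa hTi
        (by
          have hend2 : t (j₀ + (m - j₀)) = t m := hend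
          show t (j₀ + (m - j₀)) ∈ B
          rw [hend2]; exact htmB) hTB hTC ?_ hu₀ hv₀ (hu.trans hu₀')
        (by simpa using hv.trans hv₀')
      intro j k hj hk he
      rcases Nat.lt_or_ge k (m - j₀) with h | h
      · exact hTW k h j (by omega) he.symm
      · have e : k = m - j₀ := by omega
        subst e
        exact hWm j (by omega) (hend.symm.trans he.symm)

end Pool.Agent.SymMader
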