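import Pool.Agent.SymMader.Extremal

/-!
# The bioriented triangle: 2-connected graphs of minimum degree three
-/

set_option autoImplicit false

namespace Pool.Agent.SymMader

open Pool.Agent.Hhelper50.Mader

variable {V : Type}

/-- A 2-connected graph in which all vertices except possibly `s` have degree at least three
contains a theta with a path of length exactly two. -/
theorem theta_two [Finite V] {A : V → V → Prop} (hsym : ∀ u v, A u v → A v u)
    (hirr : ∀ v, ¬ A v v) (s : V) (hdeg : ∀ v, v ≠ s → 3 ≤ Set.ncard {w | A v w})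
    (hG : K2 A Set.univ) : Theta A 2 := by
  classical
  by_contra hno
  -- a neighbour of `s`
  obtain ⟨s', hs'⟩ : ∃ s', A s s' := by
    obtain ⟨⟨a, _, d, _, had⟩, hc, _⟩ := hG
    obtain ⟨w, hw⟩ : ∃ w, w ≠ s := by
      by_cases h : a = s
      · exact ⟨d, fun e => had (h.trans e.symm)⟩
      · exact ⟨a, h⟩
    rcases Relation.ReflTransGen.cases_head (hc s trivial w trivial) with h | ⟨b, hb, _⟩
    · exact absurd h.symm hw
    · exact ⟨b, hb.1⟩
  have hss : s ≠ s' := by rintro rfl; exact hirr _ hs'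
  have hstart : ∃ B : Set V, s ∈ B ∧ K2 A B ∧ Bᶜ.Nonempty := by
    refine ⟨{s, s'}, by simp, K2_pair hsym hss hs', ?_⟩
    have h0 : 1 < Set.ncard {w | A s' w} := by have := hdeg s' (fun e => hss e.symm); omega
    obtain ⟨w, hw, hwv⟩ := Set.exists_ne_of_one_lt_ncard h0 s
    refine ⟨w, ?_⟩
    rintro (h | h)
    · exact hwv h
    · rw [Set.mem_singleton_iff] at h
      subst h
      exact hirr _ hw
  obtain ⟨B, ⟨hsB, hB, hBp⟩, hBmax⟩ := Set.exists_max_image
    {B : Set V | s ∈ B ∧ K2 A B ∧ Bᶜ.Nonempty} Set.ncard (Set.toFinite _) hstart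
  -- every ear covers everything
  have hE : ∀ (k : ℕ) (r : ℕ → V) (a d : V), 1 ≤ k → PathOn A Bᶜ k r → a ∈ B → d ∈ B → a ≠ d →
      A a (r 0) → A (r (k - 1)) d → ∀ w, w ∈ B ∪ img r k := by
    intro k r a d hk hr ha hd hne har hrd w
    by_contra hw
    have hK := hB.ear hsym ha hd hne hr har hrd
    have h1 := hBmax _ ⟨Or.inl hsB, hK, ⟨w, hw⟩⟩
    have h2 : Set.ncard B < Set.ncard (B ∪ img r k) := by
      refine Set.ncard_lt_ncard ?_ (Set.toFinite _)
      refine ⟨Set.subset_union_left, fun h => ?_⟩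
      exact hr.1 0 (by omega) (h (Or.inr ⟨0, by omega, rfl⟩))
    omega
  obtain ⟨v₀, hv₀⟩ := hBp
  obtain ⟨κ, W, hκ, hWa, hWi, hW0, hWκ, hWB⟩ := exists_ear hsym hG hB hv₀
  -- the ear `r`
  obtain ⟨r, hr⟩ : ∃ r : ℕ → V, r = fun j => W (j + 1) := ⟨_, rfl⟩
  have hrj : ∀ j, r j = W (j + 1) := fun j => by rw [hr]
  have hr0B : r 0 ∉ B := by rw [hrj]; exact hWB 1 (by omega) (by omega)
  have hr0s : r 0 ≠ s := fun e => hr0B (by rw [e]; exact hsB)
  have hcov : ∀ w, w ∈ B ∪ img r (κ - 1) := by
    refine hE (κ - 1) r (W 0) (W κ) (by omega) ⟨?_, ?_, ?_⟩ hW0 hWκ ?_ ?_ ?_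
    · intro i hi; rw [hrj]; exact hWB _ (by omega) (by omega)
    · intro i hi; rw [hrj, hrj]; exact hWa _ (by omega)
    · intro i j hi hj he
      rw [hrj, hrj] at he
      have := hWi _ _ (by omega) (by omega) he
      omega
    · intro e
      have := hWi _ _ (by omega) (by omega) e
      omega
    · rw [hrj]; exact hWa 0 (by omega)
    · rw [hrj]
      have := hWa (κ - 1) (by omega)
      have e1 : κ - 1 + 1 = κ := by omega
      have e2 : κ - 1 - 1 + 1 = κ - 1 := by omega
      rw [e1] at this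
      rw [e2]; exact this
  -- `r 0` has at most one neighbour in `B`
  have hone : Set.ncard {w | A (r 0) w ∧ w ∈ B} ≤ 1 := by
    rw [Set.ncard_le_one (Set.toFinite _)]
    intro a ha d hd
    by_contra hne
    refine hno (theta_of_ear hsym hirr hB (q := 1) le_rfl (y := fun _ => r 0)
      ⟨fun _ _ => hr0B, fun i hi => by omega, fun i j hi hj _ => by omega⟩ ha.2 hd.2 hne
      (hsym _ _ ha.1) hd.1)
  -- a neighbour further on
  have hj : ∃ j, 2 ≤ j ∧ j < κ - 1 ∧ A (r 0) (r j) := by
    by_contra hcon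
    push Not at hcon
    have hsub : {w | A (r 0) w} ⊆ {w | A (r 0) w ∧ w ∈ B} ∪ {r 1} := by
      intro w hw
      rcases hcov w with h | ⟨j, hj, rfl⟩
      · exact Or.inl ⟨hw, h⟩
      · right
        rcases Nat.lt_or_ge j 2 with h | h
        · rcases Nat.lt_or_ge j 1 with h' | h'
          · obtain rfl : j = 0 := by omega
            exact absurd hw (hirr _)
          · obtain rfl : j = 1 := by omega
            rfl
        · exact absurd hw (hcon j h hj)
    have h1 := Set.ncard_le_ncard hsub (Set.toFinite _)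
    have h2 := Set.ncard_union_le {w | A (r 0) w ∧ w ∈ B} {r 1}
    rw [Set.ncard_singleton] at h2
    have h3 := hdeg (r 0) hr0s
    omega
  obtain ⟨j, hj2, hjκ, hA⟩ := hj
  -- the shortcut misses `r 1`
  obtain ⟨y, hy⟩ : ∃ y : ℕ → V, y = fun i => if i = 0 then r 0 else r (j + (i - 1)) := ⟨_, rfl⟩
  have y0 : y 0 = r 0 := by simp [hy]
  have y1 : ∀ i, 1 ≤ i → y i = r (j + (i - 1)) := by
    intro i hi
    have : i ≠ 0 := by omega
    simp [hy, this]
  have hrinj : ∀ i i', i < κ - 1 → i' < κ - 1 → r i = r i' → i = i' := by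
    intro i i' hi hi' he
    rw [hrj, hrj] at he
    have := hWi _ _ (by omega) (by omega) he
    omega
  have hmiss := hE (κ - j) y (W 0) (W κ) (by omega) ⟨?_, ?_, ?_⟩ hW0 hWκ ?_ ?_ ?_ (r 1)
  · rcases hmiss with h | ⟨i, hi, h⟩
    · rw [hrj] at h; exact hWB 2 (by omega) (by omega) h
    · rcases Nat.lt_or_ge i 1 with h' | h'
      · obtain rfl : i = 0 := by omega
        rw [y0] at h
        have := hrinj _ _ (by omega) (by omega) h
        omega
      · rw [y1 i h'] at h
        have := hrinj _ _ (by omega) (by omega) h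
        omega
  · intro i hi
    rcases Nat.lt_or_ge i 1 with h' | h'
    · obtain rfl : i = 0 := by omega
      rw [y0]; exact hr0B
    · rw [y1 i h', hrj]; exact hWB _ (by omega) (by omega)
  · intro i hi
    rcases Nat.lt_or_ge i 1 with h' | h'
    · obtain rfl : i = 0 := by omega
      rw [y0, y1 (0 + 1) (by omega)]; exact hA
    · rw [y1 i h', y1 (i + 1) (by omega), hrj, hrj]
      have := hWa (j + (i - 1) + 1) (by omega)
      have e : j + (i - 1) + 1 + 1 = j + (i + 1 - 1) + 1 := by omega
      rwa [e] at this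
  · intro i i' hi hi' he
    rcases Nat.lt_or_ge i 1 with h | h
    · rcases Nat.lt_or_ge i' 1 with h' | h'
      · omega
      · obtain rfl : i = 0 := by omega
        rw [y0, y1 i' h'] at he
        have := hrinj _ _ (by omega) (by omega) he
        omega
    · rcases Nat.lt_or_ge i' 1 with h' | h'
      · obtain rfl : i' = 0 := by omega
        rw [y0, y1 i h] at he
        have := hrinj _ _ (by omega) (by omega) he
        omega
      · rw [y1 i h, y1 i' h'] at he
        have := hrinj _ _ (by omega) (by omega) he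
        omega
  · intro e
    have := hWi _ _ (by omega) (by omega) e
    omega
  · rw [y0, hrj]; exact hWa 0 (by omega)
  · rw [y1 _ (by omega), hrj]
    have := hWa (κ - 1) (by omega)
    have e1 : κ - 1 + 1 = κ := by omega
    have e2 : j + (κ - j - 1 - 1) + 1 = κ - 1 := by omega
    rw [e1] at this
    rw [e2]; exact this

end Pool.Agent.SymMader
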