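import Pool.Agent.SymMader.Conn

/-!
# Two disjoint paths in a graph without cut vertex
-/

set_option autoImplicit false

namespace Pool.Agent.SymMader

open Pool.Agent.Hhelper50.Mader

variable {V : Type}

theorem reach_symm {A : V → V → Prop} (hsym : ∀ u v, A u v → A v u) {S : Set V} {x y : V}
    (h : Reach A S x y) : Reach A S y x := by
  obtain ⟨L, w, h1, h2, h3, h4, h5⟩ := h
  refine ⟨L, fun i => w (L - i), h1, by simpa using h3, by simpa using h2, ?_, ?_⟩
  · intro i hi
    have := h4 (L - (i + 1)) (by omega)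
    have e : L - (i + 1) + 1 = L - i := by omega
    rw [e] at this
    exact hsym _ _ this
  · intro i h0 hi
    exact h5 _ (by omega) (by omega)

/-- A shortest path to a target set. -/
theorem exists_path_to {A : V → V → Prop} {S Z : Set V} {v y : V} (hv : v ∈ S) (hy : y ∈ Z)
    (h : Relation.ReflTransGen (fun a b => A a b ∧ b ∈ S) v y) :
    ∃ (m : ℕ) (t : ℕ → V), PathOn A S (m + 1) t ∧ t 0 = v ∧ t m ∈ Z ∧ ∀ j, j < m → t j ∉ Z := by
  classical
  have hex : ∃ m : ℕ, ∃ t : ℕ → V, t 0 = v ∧ (∀ i, i < m → A (t i) (t (i + 1))) ∧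
      (∀ i, i ≤ m → t i ∈ S) ∧ t m ∈ Z := by
    have key : ∀ u, Relation.ReflTransGen (fun a b => A a b ∧ b ∈ S) v u →
        ∃ m : ℕ, ∃ t : ℕ → V, t 0 = v ∧ (∀ i, i < m → A (t i) (t (i + 1))) ∧
          (∀ i, i ≤ m → t i ∈ S) ∧ t m = u := by
      intro u hu
      induction hu with
      | refl => exact ⟨0, fun _ => v, rfl, fun i hi => by omega, fun i _ => hv, rfl⟩
      | @tail b c _ hbc ih =>
        obtain ⟨m, t, h0, h1, h2, h3⟩ := ih
        refine ⟨m + 1, fun i => if i ≤ m then t i else c, by simpa using h0, ?_, ?_, ?_⟩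
        · intro i hi
          by_cases h : i + 1 ≤ m
          · have h' : i ≤ m := by omega
            simp only [h, h', if_true]; exact h1 i (by omega)
          · have e : i = m := by omega
            subst e
            simp only [le_refl, if_true, h, if_false, h3]
            exact hbc.1
        · intro i hi
          by_cases h : i ≤ m
          · simp only [h, if_true]; exact h2 i h
          · simp only [h, if_false]; exact hbc.2
        · simp
    obtain ⟨m, t, h0, h1, h2, h3⟩ := key y h
    exact ⟨m, t, h0, h1, h2, by rw [h3]; exact hy⟩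
  obtain ⟨t, h0, h1, h2, h3⟩ := Nat.find_spec hex
  set m := Nat.find hex with hm
  refine ⟨m, t, ⟨fun i hi => h2 i (by omega), fun i hi => h1 i (by omega), ?_⟩, h0, h3, ?_⟩
  · have key : ∀ i j, i < j → j < m + 1 → t i = t j → False := by
      intro i j hij hj he
      refine Nat.find_min hex (m := m - (j - i)) (by omega)
        ⟨fun k => if k ≤ i then t k else t (k + (j - i)), by simpa using h0, ?_, ?_, ?_⟩
      · intro k hk
        by_cases hc : k + 1 ≤ i
        · have hc' : k ≤ i := by omega
          simp only [hc, hc', if_true]; exact h1 k (by omega)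
        · by_cases hc' : k ≤ i
          · have e : k = i := by omega
            subst e
            simp only [hc, le_refl, if_true, if_false, he]
            have e3 : k + 1 + (j - k) = j + 1 := by omega
            rw [e3]; exact h1 j (by omega)
          · simp only [hc, hc', if_false]
            have e3 : k + 1 + (j - i) = (k + (j - i)) + 1 := by omega
            rw [e3]; exact h1 _ (by omega)
      · intro k hk
        by_cases hc : k ≤ i
        · simp only [hc, if_true]; exact h2 k (by omega)
        · simp only [hc, if_false]; exact h2 _ (by omega)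
      · by_cases hc : m - (j - i) ≤ i
        · have e1 : j = m := by omega
          have e2 : m - (j - i) = i := by omega
          simp only [hc, if_true]
          rw [e2, he, e1]; exact h3
        · simp only [hc, if_false]
          have e : m - (j - i) + (j - i) = m := by omega
          rw [e]; exact h3
    intro i j hi hj he
    rcases lt_trichotomy i j with h | h | h
    · exact (key i j h hj he).elim
    · exact h
    · exact (key j i h hi he.symm).elim
  · intro j hj hz
    exact Nat.find_min hex hj ⟨t, h0, fun i hi => h1 i (by omega), fun i hi => h2 i (by omega), hz⟩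

/-- Two internally disjoint paths from `a` to `u` inside `B`. -/
def Two (A : V → V → Prop) (B : Set V) (a u : V) : Prop :=
  ∃ (L₁ : ℕ) (w₁ : ℕ → V) (L₂ : ℕ) (w₂ : ℕ → V),
    1 ≤ L₁ ∧ PathOn A B (L₁ + 1) w₁ ∧ w₁ 0 = a ∧ w₁ L₁ = u ∧
    1 ≤ L₂ ∧ PathOn A B (L₂ + 1) w₂ ∧ w₂ 0 = a ∧ w₂ L₂ = u ∧
    ∀ i j, 0 < i → i < L₁ → 0 < j → j < L₂ → w₁ i ≠ w₂ j

theorem two_arc {A : V → V → Prop} {B : Set V} {a u : V} (ha : a ∈ B) (hu : u ∈ B) (hne : a ≠ u)
    (h : A a u) : Two A B a u := by
  have hp : PathOn A B (1 + 1) (fun i => if i = 0 then a else u) := by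
    refine ⟨?_, ?_, ?_⟩
    · intro i _
      by_cases h0 : i = 0 <;> simp [h0, ha, hu]
    · intro i hi
      obtain rfl : i = 0 := by omega
      simpa using h
    · intro i j hi hj he
      have hi' : i = 0 ∨ i = 1 := by omega
      have hj' : j = 0 ∨ j = 1 := by omega
      rcases hi' with rfl | rfl <;> rcases hj' with rfl | rfl <;> simp at he ⊢
      · exact hne he
      · exact hne he.symm
  exact ⟨1, _, 1, _, le_rfl, hp, by simp, by simp, le_rfl, hp, by simp, by simp,
    fun i j h1 h2 _ _ => by omega⟩

theorem two_step {A : V → V → Prop} (hsym : ∀ u v, A u v → A v u) {B : Set V} {a u v : V}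
    {L₁ L₂ : ℕ} {w₁ w₂ : ℕ → V}
    (h1 : PathOn A B (L₁ + 1) w₁) (h10 : w₁ 0 = a)
    (hL2 : 1 ≤ L₂) (h2 : PathOn A B (L₂ + 1) w₂) (h20 : w₂ 0 = a) (h2L : w₂ L₂ = u)
    (hdis : ∀ i j, 0 < i → i < L₁ → 0 < j → j < L₂ → w₁ i ≠ w₂ j)
    (huv : A u v) (hv : v ∈ B) {i m : ℕ} {t : ℕ → V} (hi : i < L₁) (hu1 : w₁ L₁ = u)
    (ht : PathOn A B (m + 1) t) (ht0 : t 0 = v) (htm : t m = w₁ i) (him : 1 ≤ i + m)
    (ht1 : ∀ j, j < m → ∀ k, k ≤ L₁ → t j ≠ w₁ k) (ht2 : ∀ j, j < m → ∀ k, k ≤ L₂ → t j ≠ w₂ k)
    (hv2 : ∀ k, k ≤ L₂ → w₂ k ≠ v) : Two A B a v := by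
  obtain ⟨h1B, h1a, h1i⟩ := h1
  obtain ⟨h2B, h2a, h2i⟩ := h2
  obtain ⟨htB, hta, hti⟩ := ht
  refine ⟨i + m, fun j => if j ≤ i then w₁ j else t (m - (j - i)), L₂ + 1,
    fun j => if j ≤ L₂ then w₂ j else v, him, ⟨?_, ?_, ?_⟩, by simpa using h10, ?_, by omega,
    ⟨?_, ?_, ?_⟩, by simpa using h20, by simp, ?_⟩
  · intro j hj
    by_cases h : j ≤ i
    · simp only [h, if_true]; exact h1B j (by omega)
    · simp only [h, if_false]; exact htB _ (by omega)
  · intro j hj
    by_cases h : j + 1 ≤ i
    · have h' : j ≤ i := by omega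
      simp only [h, h', if_true]; exact h1a j (by omega)
    · by_cases h' : j ≤ i
      · have e : j = i := by omega
        subst e
        simp only [h, le_refl, if_true, if_false]
        have e2 : m - (j + 1 - j) + 1 = m := by omega
        have := hta (m - (j + 1 - j)) (by omega)
        rw [e2, htm] at this
        exact hsym _ _ this
      · simp only [h, h', if_false]
        have e2 : m - (j + 1 - i) + 1 = m - (j - i) := by omega
        have := hta (m - (j + 1 - i)) (by omega)
        rw [e2] at this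
        exact hsym _ _ this
  · intro j k hj hk he
    by_cases hji : j ≤ i
    · by_cases hki : k ≤ i
      · simp only [hji, hki, if_true] at he
        exact h1i j k (by omega) (by omega) he
      · simp only [hji, hki, if_true, if_false] at he
        exact absurd he.symm (ht1 _ (by omega) j (by omega))
    · by_cases hki : k ≤ i
      · simp only [hji, hki, if_true, if_false] at he
        exact absurd he (ht1 _ (by omega) k (by omega))
      · simp only [hji, hki, if_false] at he
        have := hti _ _ (by omega) (by omega) he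
        omega
  · by_cases h : i + m ≤ i
    · have hm : m = 0 := by omega
      subst hm
      simp only [h, if_true]
      rw [← ht0, htm]; simp
    · simp only [h, if_false]
      have e : m - (i + m - i) = 0 := by omega
      rw [e, ht0]
  · intro j hj
    by_cases h : j ≤ L₂
    · simp only [h, if_true]; exact h2B j (by omega)
    · simp only [h, if_false]; exact hv
  · intro j hj
    by_cases h : j + 1 ≤ L₂
    · have h' : j ≤ L₂ := by omega
      simp only [h, h', if_true]; exact h2a j (by omega)
    · have e : j = L₂ := by omega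
      subst e
      simp only [le_refl, h, if_true, if_false, h2L]
      exact huv
  · intro j k hj hk he
    by_cases hji : j ≤ L₂
    · by_cases hki : k ≤ L₂
      · simp only [hji, hki, if_true] at he
        exact h2i j k (by omega) (by omega) he
      · simp only [hji, hki, if_true, if_false] at he
        exact absurd he (hv2 j hji)
    · by_cases hki : k ≤ L₂
      · simp only [hji, hki, if_true, if_false] at he
        exact absurd he.symm (hv2 k hki)
      · omega
  · intro j k hj0 hj hk0 hk he
    have hk2 : k ≤ L₂ := by omega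
    by_cases hji : j ≤ i
    · simp only [hji, hk2, if_true] at he
      rcases Nat.lt_or_ge k L₂ with hkL | hkL
      · exact hdis j k hj0 (by omega) hk0 hkL he
      · have e : k = L₂ := by omega
        subst e
        rw [h2L, ← hu1] at he
        have := h1i j L₁ (by omega) (by omega) he
        omega
    · simp only [hji, hk2, if_true, if_false] at he
      exact ht2 _ (by omega) k hk2 he

theorem two_of_K2 {A : V → V → Prop} (hsym : ∀ u v, A u v → A v u) (hirr : ∀ v, ¬ A v v)
    {B : Set V} (hB : K2 A B) {a : V} (ha : a ∈ B) {u : V} (hu : u ∈ B) (hne : u ≠ a) :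
    Two A B a u := by
  obtain ⟨_, hc, hcut⟩ := hB
  have key : ∀ u, Relation.ReflTransGen (fun x y => A x y ∧ y ∈ B) a u →
      u = a ∨ (u ∈ B ∧ Two A B a u) := by
    intro u hu
    induction hu with
    | refl => exact Or.inl rfl
    | @tail u v _ huv ih =>
      obtain ⟨huv, hvB⟩ := huv
      by_cases hva : v = a
      · exact Or.inl hva
      right
      refine ⟨hvB, ?_⟩
      rcases ih with rfl | ⟨huB, L₁, w₁, L₂, w₂, hL1, h1, h10, h1L, hL2, h2, h20, h2L, hdis⟩
      · exact two_arc ha hvB (fun e => hva e.symm) huv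
      have huv' : v ≠ u := fun e => hirr u (e ▸ huv)
      by_cases hua : u = a
      · subst hua; exact two_arc ha hvB (fun e => hva e.symm) huv
      have hvS : v ∈ B \ {u} := ⟨hvB, huv'⟩
      have haS : a ∈ B \ {u} := ⟨ha, fun e => hua e.symm⟩
      obtain ⟨m, t, ⟨htS, hta, hti⟩, ht0, htm, htZ⟩ := exists_path_to
        (Z := {x | (∃ k, k ≤ L₁ ∧ x = w₁ k) ∨ ∃ k, k ≤ L₂ ∧ x = w₂ k}) hvS
        (Or.inl ⟨0, by omega, h10.symm⟩) (hcut u huB v hvS a haS)
      have htB : PathOn A B (m + 1) t := ⟨fun i hi => (htS i hi).1, hta, hti⟩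
      have htu : t m ≠ u := (htS m (by omega)).2
      have ht1 : ∀ j, j < m → ∀ k, k ≤ L₁ → t j ≠ w₁ k := fun j hj k hk e =>
        htZ j hj (Or.inl ⟨k, hk, e⟩)
      have ht2 : ∀ j, j < m → ∀ k, k ≤ L₂ → t j ≠ w₂ k := fun j hj k hk e =>
        htZ j hj (Or.inr ⟨k, hk, e⟩)
      rcases htm with ⟨i, hi, he⟩ | ⟨i, hi, he⟩
      · have hi' : i < L₁ := by
          rcases Nat.lt_or_ge i L₁ with h | h
          · exact h
          · have e : i = L₁ := by omega
            subst e; exact absurd (he.trans h1L) htu
        have him : 1 ≤ i + m := by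
          by_contra hcon
          have e1 : i = 0 := by omega
          have e2 : m = 0 := by omega
          subst e1; subst e2
          exact hva (by rw [← ht0, he, h10])
        refine two_step hsym h1 h10 hL2 h2 h20 h2L hdis huv hvB hi' h1L htB ht0 he him ht1 ht2 ?_
        intro k hk hkv
        rcases Nat.eq_zero_or_pos m with h0 | h0
        · subst h0
          have hvi : v = w₁ i := by rw [← ht0, he]
          rcases Nat.eq_zero_or_pos k with hk0 | hk0
          · subst hk0; exact hva (by rw [← hkv, h20])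
          · rcases Nat.lt_or_ge k L₂ with hkL | hkL
            · exact hdis i k (by omega) hi' hk0 hkL (by rw [hkv, hvi])
            · have e : k = L₂ := by omega
              subst e; exact huv' (by rw [← hkv, h2L])
        · exact ht2 0 h0 k hk (by rw [ht0, hkv])
      · have hi' : i < L₂ := by
          rcases Nat.lt_or_ge i L₂ with h | h
          · exact h
          · have e : i = L₂ := by omega
            subst e; exact absurd (he.trans h2L) htu
        have him : 1 ≤ i + m := by
          by_contra hcon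
          have e1 : i = 0 := by omega
          have e2 : m = 0 := by omega
          subst e1; subst e2
          exact hva (by rw [← ht0, he, h20])
        refine two_step hsym h2 h20 hL1 h1 h10 h1L
          (fun i j a b c d => (hdis j i c d a b).symm) huv hvB hi' h2L htB ht0 he him ht2 ht1 ?_
        intro k hk hkv
        rcases Nat.eq_zero_or_pos m with h0 | h0
        · subst h0
          have hvi : v = w₂ i := by rw [← ht0, he]
          rcases Nat.eq_zero_or_pos k with hk0 | hk0
          · subst hk0; exact hva (by rw [← hkv, h10])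
          · rcases Nat.lt_or_ge k L₁ with hkL | hkL
            · exact hdis k i hk0 hkL (by omega) hi' (by rw [hkv, hvi])
            · have e : k = L₁ := by omega
              subst e; exact huv' (by rw [← hkv, h1L])
        · exact ht1 0 h0 k hk (by rw [ht0, hkv])
  rcases key u (hc a ha u hu) with h | h
  · exact absurd h hne
  · exact h.2

/-- Two disjoint return paths, in the form used for the theta graph. -/
theorem reach_of_K2 {A : V → V → Prop} (hsym : ∀ u v, A u v → A v u) (hirr : ∀ v, ¬ A v v)
    {B : Set V} (hB : K2 A B) {a d : V} (ha : a ∈ B) (hd : d ∈ B) (hne : a ≠ d) :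
    ∃ S₁ S₂ : Set V, S₁ ⊆ B ∧ S₂ ⊆ B ∧ a ∉ S₁ ∧ d ∉ S₁ ∧ a ∉ S₂ ∧ d ∉ S₂ ∧
      (∀ v, v ∈ S₁ → v ∉ S₂) ∧ Reach A S₁ d a ∧ Reach A S₂ a d := by
  obtain ⟨L₁, w₁, L₂, w₂, hL1, ⟨h1B, h1a, h1i⟩, h10, h1L, hL2, ⟨h2B, h2a, h2i⟩, h20, h2L, hdis⟩ :=
    two_of_K2 hsym hirr hB ha hd (fun e => hne e.symm)
  refine ⟨{v | ∃ i, 0 < i ∧ i < L₁ ∧ v = w₁ i}, {v | ∃ i, 0 < i ∧ i < L₂ ∧ v = w₂ i},
    ?_, ?_, ?_, ?_, ?_, ?_, ?_, ?_, ?_⟩
  · rintro v ⟨i, _, hi, rfl⟩; exact h1B i (by omega)
  · rintro v ⟨i, _, hi, rfl⟩; exact h2B i (by omega)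
  · rintro ⟨i, h0, hi, he⟩
    rw [← h10] at he
    have := h1i 0 i (by omega) (by omega) he
    omega
  · rintro ⟨i, h0, hi, he⟩
    rw [← h1L] at he
    have := h1i L₁ i (by omega) (by omega) he
    omega
  · rintro ⟨i, h0, hi, he⟩
    rw [← h20] at he
    have := h2i 0 i (by omega) (by omega) he
    omega
  · rintro ⟨i, h0, hi, he⟩
    rw [← h2L] at he
    have := h2i L₂ i (by omega) (by omega) he
    omega
  · rintro v ⟨i, h0, hi, rfl⟩ ⟨j, h0', hj, he⟩
    exact hdis i j h0 hi h0' hj he
  · exact reach_symm hsym ⟨L₁, w₁, hL1, h10, h1L, fun i hi => h1a i (by omega),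
      fun i h0 hi => ⟨i, h0, hi, rfl⟩⟩
  · exact ⟨L₂, w₂, hL2, h20, h2L, fun i hi => h2a i (by omega), fun i h0 hi => ⟨i, h0, hi, rfl⟩⟩

end Pool.Agent.SymMader
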